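import Mathlib

set_option autoImplicit false

/-!
# Bernstein's inequality for matrix coefficients of one-parameter groups of isometries

Let `S` be a skew-adjoint operator of norm at most `κ` on a Euclidean space `E`, and let `x, y` be
vectors with `|⟪y, exp (t S) x⟫| ≤ 1` for all real `t`. Then `|⟪y, S x⟫| ≤ κ`.

The proof: the function `t ↦ ⟪y, exp (t S) x⟫` is a combination of exponentials with frequencies in
`[-κ, κ]`, and the derivative at zero of such a function is given by M. Riesz' interpolation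
formula, i.e. by the Fourier series of the triangle wave.
-/

namespace Pool.Agent.TH591.Lie

open Real

theorem hasSum_tri (ψ : ℝ) (h : |ψ| ≤ π / 2) :
    HasSum (fun r : ℕ => (-1 : ℝ) ^ r * sin ((2 * r + 1) * ψ) / (2 * r + 1) ^ 2)
      (π * ψ / 4) := by
  have hπ := pi_pos
  obtain ⟨h1, h2⟩ := abs_le.mp h
  set x : ℝ := (π / 2 - ψ) / (2 * π) with hx
  have hx0 : 0 ≤ x := by rw [hx]; apply div_nonneg <;> linarith
  have hx1 : x ≤ 1 / 2 := by
    rw [hx, div_le_iff₀ (by positivity)]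
    linarith
  have f (y : ℝ) (hy0 : 0 ≤ y) (hy1 : y ≤ 1) :
      HasSum (fun n : ℕ => 1 / (n : ℝ) ^ 2 * cos (2 * π * n * y)) (π ^ 2 * (y ^ 2 - y + 1 / 6)) := by
    have h := hasSum_one_div_nat_pow_mul_cos (k := 1) one_ne_zero (x := y) ⟨hy0, hy1⟩
    have e : (Polynomial.map (algebraMap ℚ ℝ) (Polynomial.bernoulli (2 * 1))).eval y
        = y ^ 2 - y + 1 / 6 := by
      rw [mul_one, Polynomial.bernoulli_def, Finset.sum_range_succ, Finset.sum_range_succ,
        Finset.sum_range_succ, Finset.sum_range_zero]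
      simp [bernoulli_one, bernoulli_two, bernoulli_zero]
      ring
    have e2 : (-1 : ℝ) ^ (1 + 1) * (2 * π) ^ (2 * 1) / 2 / ((2 * 1).factorial : ℝ)
        = π ^ 2 := by
      simp [Nat.factorial]
      ring
    rw [e, e2] at h
    exact h
  have hf := f x hx0 (by linarith)
  have hev : HasSum (fun k : ℕ => 1 / ((2 * k : ℕ) : ℝ) ^ 2 * cos (2 * π * (2 * k : ℕ) * x))
      (1 / 4 * (π ^ 2 * ((2 * x) ^ 2 - (2 * x) + 1 / 6))) := by
    have := (f (2 * x) (by linarith) (by linarith)).mul_left (1 / 4)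
    convert! this using 1
    ext k
    have : 2 * π * ((2 * k : ℕ) : ℝ) * x = 2 * π * k * (2 * x) := by push_cast; ring
    rw [this]
    rcases Nat.eq_zero_or_pos k with rfl | hk
    · simp
    · have : (0 : ℝ) < k := by exact_mod_cast hk
      push_cast
      field_simp
      ring
  set F : ℕ → ℝ := fun n => 1 / (n : ℝ) ^ 2 * cos (2 * π * n * x) with hF
  have hodds : Summable (fun k : ℕ => F (2 * k + 1)) :=
    hf.summable.comp_injective (i := fun k : ℕ => 2 * k + 1) (fun a b hab => by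
      simpa using hab)
  have hall : HasSum F (1 / 4 * (π ^ 2 * ((2 * x) ^ 2 - (2 * x) + 1 / 6))
      + ∑' k : ℕ, F (2 * k + 1)) := HasSum.even_add_odd (f := F) hev hodds.hasSum
  have huniq := hf.unique hall
  have hval : (∑' k : ℕ, F (2 * k + 1)) = π * ψ / 4 := by
    have e : x * (2 * π) = π / 2 - ψ := by
      rw [hx]; field_simp
    have e2 : ψ = π / 2 - x * (2 * π) := by linarith
    rw [e2]
    linear_combination -huniq
  have hodd := hodds.hasSum
  rw [hval] at hodd
  convert! hodd using 1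
  ext r
  have hc : 2 * π * ((2 * r + 1 : ℕ) : ℝ) * x = (π / 2 - (2 * r + 1) * ψ) + r * π := by
    have e : x * (2 * π) = π / 2 - ψ := by
      rw [hx]; field_simp
    have : 2 * π * ((2 * r + 1 : ℕ) : ℝ) * x = ((2 * r + 1 : ℕ) : ℝ) * (x * (2 * π)) := by ring
    rw [this, e]
    push_cast
    ring
  rw [hF]
  simp only
  rw [hc, cos_add_nat_mul_pi, cos_pi_div_two_sub]
  push_cast
  ring

theorem hasSum_odd_sq : HasSum (fun r : ℕ => 1 / (2 * (r : ℝ) + 1) ^ 2) (π ^ 2 / 8) := by
  have h := hasSum_tri (π / 2) (by rw [abs_of_pos (by positivity)])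
  convert! h using 1
  · ext r
    have : (2 * (r : ℝ) + 1) * (π / 2) = π / 2 + r * π := by ring
    rw [this, sin_add_nat_mul_pi, sin_pi_div_two, mul_one, ← mul_pow]
    norm_num
  · ring

/-- The scalar form of Bernstein's inequality. -/
theorem bern_scalar {J : Type*} [Fintype J] (b l : J → ℝ) (κ : ℝ) (hκ : 0 < κ)
    (hl : ∀ j, |l j| ≤ κ) (hg : ∀ t : ℝ, |∑ j, b j * sin (t * l j)| ≤ 1) :
    |∑ j, b j * l j| ≤ κ := by
  have hπ := pi_pos
  have h1 : ∀ j, HasSum (fun r : ℕ => b j * ((-1 : ℝ) ^ r *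
      sin ((2 * r + 1) * (π * l j / (2 * κ))) / (2 * r + 1) ^ 2))
      (b j * (π * (π * l j / (2 * κ)) / 4)) := by
    intro j
    refine (hasSum_tri _ ?_).mul_left _
    rw [abs_div, abs_mul, abs_of_pos hπ, abs_of_pos (show (0 : ℝ) < 2 * κ by positivity),
      div_le_div_iff₀ (by positivity) (by positivity)]
    have := hl j
    nlinarith
  have h2 := hasSum_sum (s := Finset.univ) fun j _ => h1 j
  have h3 : (fun r : ℕ => ∑ j, b j * ((-1 : ℝ) ^ r *
      sin ((2 * r + 1) * (π * l j / (2 * κ))) / (2 * r + 1) ^ 2))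
      = fun r : ℕ => (-1 : ℝ) ^ r * (∑ j, b j * sin (((2 * r + 1) * π / (2 * κ)) * l j))
        / (2 * r + 1) ^ 2 := by
    ext r
    rw [Finset.mul_sum, Finset.sum_div]
    refine Finset.sum_congr rfl fun j _ => ?_
    have : (2 * (r : ℝ) + 1) * (π * l j / (2 * κ)) = ((2 * r + 1) * π / (2 * κ)) * l j := by ring
    rw [this]
    ring
  rw [h3] at h2
  have h4 : ∑ j, b j * (π * (π * l j / (2 * κ)) / 4) = π ^ 2 / (8 * κ) * ∑ j, b j * l j := by
    rw [Finset.mul_sum]
    refine Finset.sum_congr rfl fun j _ => ?_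
    field_simp
    ring
  rw [h4] at h2
  have h5 : ‖π ^ 2 / (8 * κ) * ∑ j, b j * l j‖ ≤ π ^ 2 / 8 := by
    refine h2.norm_le_of_bounded hasSum_odd_sq fun r => ?_
    rw [norm_div, norm_mul, norm_pow, norm_neg, norm_one, one_pow, one_mul]
    have h6 : ‖(2 * (r : ℝ) + 1) ^ 2‖ = (2 * (r : ℝ) + 1) ^ 2 := by
      rw [Real.norm_of_nonneg]; positivity
    rw [h6]
    gcongr
    exact hg _
  rw [norm_mul, Real.norm_of_nonneg (show 0 ≤ π ^ 2 / (8 * κ) by positivity), Real.norm_eq_abs]
    at h5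
  have h7 : π ^ 2 / (8 * κ) * |∑ j, b j * l j| ≤ π ^ 2 / (8 * κ) * κ := by
    refine h5.trans (le_of_eq ?_)
    field_simp
  exact le_of_mul_le_mul_left h7 (by positivity)

end Pool.Agent.TH591.Lie
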