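import Mathlib
import Pool.Agent.TH591.Lie.Bern

set_option autoImplicit false

/-!
# Bernstein's inequality for one-parameter groups of isometries
-/

namespace Pool.Agent.TH591.Lie

open scoped InnerProductSpace

variable {E : Type*} [NormedAddCommGroup E] [InnerProductSpace ℝ E] [FiniteDimensional ℝ E]

theorem hasDerivAt_flow (S : E →L[ℝ] E) (x : E) (t : ℝ) :
    HasDerivAt (fun t : ℝ => NormedSpace.exp (t • S) x) (S (NormedSpace.exp (t • S) x)) t := by
  have h := (hasDerivAt_exp_smul_const' (𝕂 := ℝ) S t).clm_apply (hasDerivAt_const t x)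
  simpa using h

theorem flow_add (S : E →L[ℝ] E) (s t : ℝ) (x : E) :
    NormedSpace.exp ((s + t) • S) x = NormedSpace.exp (s • S) (NormedSpace.exp (t • S) x) := by
  letI : NormedAlgebra ℚ (E →L[ℝ] E) := NormedAlgebra.restrictScalars ℚ ℝ (E →L[ℝ] E)
  rw [add_smul, NormedSpace.exp_add_of_commute ((Commute.refl S).smul_left s |>.smul_right t)]
  rfl

omit [FiniteDimensional ℝ E] in
theorem flow_zero (S : E →L[ℝ] E) (x : E) : NormedSpace.exp ((0 : ℝ) • S) x = x := by
  rw [zero_smul, NormedSpace.exp_zero]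
  rfl

theorem flow_neg (S : E →L[ℝ] E) (t : ℝ) (x : E) :
    NormedSpace.exp ((-t) • S) (NormedSpace.exp (t • S) x) = x := by
  rw [← flow_add, neg_add_cancel, flow_zero]

theorem flow_neg' (S : E →L[ℝ] E) (t : ℝ) (x : E) :
    NormedSpace.exp (t • S) (NormedSpace.exp ((-t) • S) x) = x := by
  rw [← flow_add, add_neg_cancel, flow_zero]

/-- The flow of a skew-adjoint operator preserves the inner product. -/
theorem flow_inner (S : E →L[ℝ] E) (hS : ∀ x y, ⟪S x, y⟫_ℝ = -⟪x, S y⟫_ℝ) (t : ℝ) (x y : E) :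
    ⟪NormedSpace.exp (t • S) x, NormedSpace.exp (t • S) y⟫_ℝ = ⟪x, y⟫_ℝ := by
  have hd : ∀ s : ℝ, HasDerivAt (fun t : ℝ => ⟪NormedSpace.exp (t • S) x,
      NormedSpace.exp (t • S) y⟫_ℝ) 0 s := by
    intro s
    have h := (hasDerivAt_flow S x s).inner ℝ (hasDerivAt_flow S y s)
    rw [hS, add_neg_cancel] at h
    exact h
  have hc := is_const_of_deriv_eq_zero (fun s => (hd s).differentiableAt) (fun s => (hd s).deriv)
    t 0
  simpa [flow_zero] using hc

theorem flow_norm (S : E →L[ℝ] E) (hS : ∀ x y, ⟪S x, y⟫_ℝ = -⟪x, S y⟫_ℝ) (t : ℝ) (x : E) :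
    ‖NormedSpace.exp (t • S) x‖ = ‖x‖ := by
  have h := flow_inner S hS t x x
  rw [real_inner_self_eq_norm_sq, real_inner_self_eq_norm_sq] at h
  exact (sq_eq_sq₀ (norm_nonneg _) (norm_nonneg _)).mp h

/-- The flow on a plane on which `S` acts as a rotation. -/
theorem flow_plane (S : E →L[ℝ] E) (e : E) (l : ℝ) (h2 : S (S e) = -(l ^ 2) • e)
    (h0 : l = 0 → S e = 0) (t : ℝ) :
    NormedSpace.exp (t • S) e = Real.cos (t * l) • e + (Real.sin (t * l) / l) • S e := by
  rcases eq_or_ne l 0 with hl | hl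
  · subst hl
    have hSe := h0 rfl
    have hd : ∀ s : ℝ, HasDerivAt (fun t : ℝ => NormedSpace.exp (t • S) e) 0 s := by
      intro s
      have h := (hasDerivAt_exp_smul_const (𝕂 := ℝ) S s).clm_apply (hasDerivAt_const s e)
      simpa [hSe] using h
    have hc := is_const_of_deriv_eq_zero (fun s => (hd s).differentiableAt)
      (fun s => (hd s).deriv) t 0
    rw [flow_zero] at hc
    rw [hc]
    simp
  · let u : ℝ → E := fun t => Real.cos (t * l) • e + (Real.sin (t * l) / l) • S e
    have hu : ∀ s, HasDerivAt u (S (u s)) s := by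
      intro s
      have h1 : HasDerivAt (fun t : ℝ => Real.cos (t * l)) (-Real.sin (s * l) * l) s := by
        simpa using ((hasDerivAt_id s).mul_const l).cos
      have h2' : HasDerivAt (fun t : ℝ => Real.sin (t * l) / l) (Real.cos (s * l)) s := by
        have := (((hasDerivAt_id s).mul_const l).sin).div_const l
        simpa [hl] using this
      have h3 := (h1.smul_const e).add (h2'.smul_const (S e))
      convert! h3 using 1
      simp only [u, map_add, map_smul, h2, smul_smul]
      rw [add_comm]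
      congr 2
      field_simp
    have hd : ∀ s : ℝ, HasDerivAt (fun t : ℝ => NormedSpace.exp ((-t) • S) (u t)) 0 s := by
      intro s
      have h1 : HasDerivAt (fun t : ℝ => NormedSpace.exp ((-t) • S))
          (-(NormedSpace.exp ((-s) • S) * S)) s := by
        have := (hasDerivAt_exp_smul_const (𝕂 := ℝ) S (-s)).scomp s (hasDerivAt_neg s)
        simpa [Function.comp_def] using this
      have h := h1.clm_apply (hu s)
      simpa using h
    have hc := is_const_of_deriv_eq_zero (fun s => (hd s).differentiableAt)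
      (fun s => (hd s).deriv) t 0
    simp only [neg_zero, flow_zero] at hc
    have hu0 : u 0 = e := by simp [u]
    rw [hu0] at hc
    calc NormedSpace.exp (t • S) e
        = NormedSpace.exp (t • S) (NormedSpace.exp ((-t) • S) (u t)) := by rw [hc]
      _ = u t := flow_neg' S t _

/-- **Bernstein's inequality.** -/
theorem bern (S : E →L[ℝ] E) (hS : ∀ x y, ⟪S x, y⟫_ℝ = -⟪x, S y⟫_ℝ) (κ : ℝ) (hκ : 0 < κ)
    (hn : ∀ x, ‖S x‖ ≤ κ * ‖x‖) (x y : E)
    (h : ∀ t : ℝ, |⟪y, NormedSpace.exp (t • S) x⟫_ℝ| ≤ 1) : |⟪y, S x⟫_ℝ| ≤ κ := by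
  classical
  let T : E →ₗ[ℝ] E := -((S : E →ₗ[ℝ] E) ∘ₗ (S : E →ₗ[ℝ] E))
  have hTa : ∀ z, T z = -(S (S z)) := fun z => rfl
  have hT : T.IsSymmetric := by
    intro a b
    rw [hTa, hTa, inner_neg_left, inner_neg_right, hS, hS, neg_neg]
  let e := hT.eigenvectorBasis rfl
  let μ := hT.eigenvalues rfl
  have hTe : ∀ j, T (e j) = μ j • e j := fun j => hT.apply_eigenvectorBasis rfl j
  have hμ : ∀ j, μ j = ‖S (e j)‖ ^ 2 := by
    intro j
    have h1 : ⟪e j, T (e j)⟫_ℝ = μ j := by
      rw [hTe, inner_smul_right, real_inner_self_eq_norm_sq, e.norm_eq_one]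
      ring
    rw [← h1, hTa, inner_neg_right, ← hS, real_inner_self_eq_norm_sq]
  let l : Fin (Module.finrank ℝ E) → ℝ := fun j => ‖S (e j)‖
  have hlS : ∀ j, S (S (e j)) = -(l j ^ 2) • e j := by
    intro j
    have h1 := hTe j
    rw [hTa, hμ] at h1
    rw [neg_smul, ← h1, neg_neg]
  have hflow : ∀ t j, NormedSpace.exp (t • S) (e j)
      = Real.cos (t * l j) • e j + (Real.sin (t * l j) / l j) • S (e j) := by
    intro t j
    exact flow_plane S (e j) (l j) (hlS j) (fun h0 => by simpa [l] using h0) t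
  let b : Fin (Module.finrank ℝ E) → ℝ := fun j => ⟪e j, x⟫_ℝ * ⟪y, S (e j)⟫_ℝ / l j
  have hx : x = ∑ j, ⟪e j, x⟫_ℝ • e j := (e.sum_repr' x).symm
  have hexp : ∀ t : ℝ, ⟪y, NormedSpace.exp (t • S) x⟫_ℝ
      = ∑ j, ⟪e j, x⟫_ℝ * (Real.cos (t * l j) * ⟪y, e j⟫_ℝ)
        + ∑ j, b j * Real.sin (t * l j) := by
    intro t
    conv_lhs => rw [hx]
    rw [map_sum, inner_sum, ← Finset.sum_add_distrib]
    refine Finset.sum_congr rfl fun j _ => ?_
    rw [map_smul, inner_smul_right, hflow, inner_add_right, inner_smul_right, inner_smul_right]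
    simp only [b]
    ring
  have hsum : ∑ j, b j * l j = ⟪y, S x⟫_ℝ := by
    conv_rhs => rw [hx]
    rw [map_sum, inner_sum]
    refine Finset.sum_congr rfl fun j _ => ?_
    rw [map_smul, inner_smul_right]
    simp only [b]
    rcases eq_or_ne (l j) 0 with h0 | h0
    · have : S (e j) = 0 := by simpa [l] using h0
      simp [this]
    · field_simp
  rw [← hsum]
  refine bern_scalar b l κ hκ ?_ ?_
  · intro j
    rw [abs_of_nonneg (norm_nonneg _)]
    have := hn (e j)
    rwa [e.norm_eq_one, mul_one] at this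
  · intro t
    have h1 := h t
    have h2 := h (-t)
    rw [hexp] at h1 h2
    simp only [neg_mul, Real.cos_neg, Real.sin_neg, mul_neg, Finset.sum_neg_distrib] at h2
    rw [abs_le] at h1 h2 ⊢
    constructor <;> linarith [h1.1, h1.2, h2.1, h2.2]

end Pool.Agent.TH591.Lie
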