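import Mathlib
import Pool.Agent.TH591.Lie.Bern2

set_option autoImplicit false

/-!
# Sub-Gaussian linear functionals on invariant bodies

Integration by parts along the flow of a skew-adjoint operator on an invariant compact set, and
the resulting bound of the moment generating function of a linear functional.
-/

namespace Pool.Agent.TH591.Lie

open MeasureTheory
open scoped InnerProductSpace

variable {E : Type*} [NormedAddCommGroup E] [InnerProductSpace ℝ E] [FiniteDimensional ℝ E]
  [MeasurableSpace E] [BorelSpace E]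

/-- The flow of a skew-adjoint operator as an isometry. -/
noncomputable def flowIso (S : E →L[ℝ] E) (hS : ∀ x y, ⟪S x, y⟫_ℝ = -⟪x, S y⟫_ℝ) (t : ℝ) :
    E ≃ₗᵢ[ℝ] E where
  toFun := (NormedSpace.exp (t • S) : E →L[ℝ] E)
  invFun := (NormedSpace.exp ((-t) • S) : E →L[ℝ] E)
  left_inv := flow_neg S t
  right_inv := flow_neg' S t
  map_add' := map_add (NormedSpace.exp (t • S) : E →L[ℝ] E)
  map_smul' := map_smul (NormedSpace.exp (t • S) : E →L[ℝ] E)
  norm_map' := flow_norm S hS t

/-- The integral over an invariant set is invariant. -/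
theorem setIntegral_flow (S : E →L[ℝ] E) (hS : ∀ x y, ⟪S x, y⟫_ℝ = -⟪x, S y⟫_ℝ) (K : Set E)
    (hK : ∀ t : ℝ, ∀ x ∈ K, NormedSpace.exp (t • S) x ∈ K) (F : E → ℝ) (t : ℝ) :
    ∫ x in K, F (NormedSpace.exp (t • S) x) = ∫ x in K, F x := by
  have hmp := (flowIso S hS t).measurePreserving
  have hpre : (flowIso S hS t) ⁻¹' K = K := by
    ext x
    refine ⟨fun h => ?_, fun h => hK t x h⟩
    have := hK (-t) _ h
    have e : NormedSpace.exp ((-t) • S) ((flowIso S hS t) x) = x := flow_neg S t x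
    rwa [e] at this
  have h := hmp.setIntegral_preimage_emb (flowIso S hS t).toHomeomorph.measurableEmbedding F K
  rw [hpre] at h
  exact h

/-- Integration by parts. -/
theorem ibp (S : E →L[ℝ] E) (hS : ∀ x y, ⟪S x, y⟫_ℝ = -⟪x, S y⟫_ℝ) (K : Set E)
    (hKc : IsCompact K) (hK : ∀ t : ℝ, ∀ x ∈ K, NormedSpace.exp (t • S) x ∈ K) (F G : E → ℝ)
    (hF : Continuous F) (hG : Continuous G)
    (hd : ∀ x (t : ℝ), HasDerivAt (fun t : ℝ => F (NormedSpace.exp (t • S) x))
      (G (NormedSpace.exp (t • S) x)) t) :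
    ∫ x in K, G x = 0 := by
  obtain ⟨C, hC⟩ := hKc.exists_bound_of_continuousOn hG.continuousOn
  have hfin : IsFiniteMeasure (volume.restrict K) := ⟨by
    rw [Measure.restrict_apply_univ]; exact hKc.measure_lt_top⟩
  have h := hasDerivAt_integral_of_dominated_loc_of_deriv_le (μ := volume.restrict K)
    (F := fun (t : ℝ) x => F (NormedSpace.exp (t • S) x))
    (F' := fun (t : ℝ) x => G (NormedSpace.exp (t • S) x)) (x₀ := 0) (s := Set.univ)
    (bound := fun _ => C) Filter.univ_mem
    (Filter.Eventually.of_forall fun t =>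
      (hF.comp (NormedSpace.exp (t • S)).continuous).aestronglyMeasurable)
    ?_ (hG.comp (NormedSpace.exp ((0 : ℝ) • S)).continuous).aestronglyMeasurable ?_
    (integrable_const C) (Filter.Eventually.of_forall fun x t _ => hd x t)
  · have h1 : (fun t : ℝ => ∫ x in K, F (NormedSpace.exp (t • S) x))
        = fun _ => ∫ x in K, F x := by
      ext t
      exact setIntegral_flow S hS K hK F t
    have h2 := h.2
    rw [h1] at h2
    have h3 := h2.unique (hasDerivAt_const (0 : ℝ) (∫ x in K, F x))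
    simpa [flow_zero] using h3
  · exact (ContinuousOn.integrableOn_compact hKc
      (hF.comp (NormedSpace.exp ((0 : ℝ) • S)).continuous).continuousOn)
  · exact ae_restrict_of_forall_mem hKc.measurableSet fun x hx t _ => hC _ (hK t x hx)

/-- The moment generating function of the functional `⟪y, ·⟫` on `K`. -/
noncomputable def mgfK (K : Set E) (y : E) (r : ℝ) : ℝ := ∫ x in K, Real.exp (r * ⟪y, x⟫_ℝ)

theorem hasDerivAt_mgfK (K : Set E) (hKc : IsCompact K) (y : E) (r : ℝ) :
    HasDerivAt (mgfK K y) (∫ x in K, ⟪y, x⟫_ℝ * Real.exp (r * ⟪y, x⟫_ℝ)) r := by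
  have hcont : Continuous fun x : E => ⟪y, x⟫_ℝ := continuous_const.inner continuous_id
  obtain ⟨C, hC⟩ := hKc.exists_bound_of_continuousOn hcont.continuousOn
  have hfin : IsFiniteMeasure (volume.restrict K) := ⟨by
    rw [Measure.restrict_apply_univ]; exact hKc.measure_lt_top⟩
  have h := hasDerivAt_integral_of_dominated_loc_of_deriv_le (μ := volume.restrict K)
    (F := fun (s : ℝ) x => Real.exp (s * ⟪y, x⟫_ℝ))
    (F' := fun (s : ℝ) x => ⟪y, x⟫_ℝ * Real.exp (s * ⟪y, x⟫_ℝ)) (x₀ := r)
    (s := Metric.ball r 1)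
    (bound := fun _ => C * Real.exp ((|r| + 1) * C)) (Metric.ball_mem_nhds r one_pos)
    (Filter.Eventually.of_forall fun t =>
      (Real.continuous_exp.comp (continuous_const.mul hcont)).aestronglyMeasurable)
    ?_ (hcont.mul (Real.continuous_exp.comp
      (continuous_const.mul hcont))).aestronglyMeasurable ?_
    (integrable_const _) (Filter.Eventually.of_forall fun x t _ => ?_)
  · exact h.2
  · exact (ContinuousOn.integrableOn_compact hKc
      (Real.continuous_exp.comp (continuous_const.mul hcont)).continuousOn)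
  · refine ae_restrict_of_forall_mem hKc.measurableSet fun x hx t ht => ?_
    have h1 := hC x hx
    rw [Real.norm_eq_abs] at h1
    have hC0 : 0 ≤ C := (abs_nonneg _).trans h1
    rw [norm_mul, Real.norm_eq_abs, Real.norm_eq_abs, Real.abs_exp]
    refine mul_le_mul h1 (Real.exp_le_exp.mpr ?_) (Real.exp_pos _).le hC0
    have ht' : |t| ≤ |r| + 1 := by
      rw [Metric.mem_ball, Real.dist_eq] at ht
      have := abs_sub_abs_le_abs_sub t r
      linarith
    calc t * ⟪y, x⟫_ℝ ≤ |t * ⟪y, x⟫_ℝ| := le_abs_self _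
      _ = |t| * |⟪y, x⟫_ℝ| := abs_mul _ _
      _ ≤ (|r| + 1) * C := mul_le_mul ht' h1 (abs_nonneg _) (by positivity)
  · have := ((hasDerivAt_id t).mul_const (⟪y, x⟫_ℝ)).exp
    simpa [mul_comm] using this

variable {ι : Type*} [Fintype ι]

/-- The key estimate: if `⟪y, x⟫ = -∑ ⟪z, X i (X i x)⟫` and `∑ ⟪z, X i x⟫ ⟪y, X i x⟫ ≤ B` on `K` then
`⟪y, ·⟫` is sub-Gaussian on `K` with variance proxy `B`. -/
theorem mgf_le (X : ι → E →L[ℝ] E) (hX : ∀ i x y, ⟪X i x, y⟫_ℝ = -⟪x, X i y⟫_ℝ) (K : Set E)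
    (hKc : IsCompact K) (hK : ∀ i (t : ℝ), ∀ x ∈ K, NormedSpace.exp (t • X i) x ∈ K)
    (y z : E) (hz : ∀ x, ⟪y, x⟫_ℝ = -∑ i, ⟪z, X i (X i x)⟫_ℝ) (B : ℝ)
    (hB : ∀ x ∈ K, ∑ i, ⟪z, X i x⟫_ℝ * ⟪y, X i x⟫_ℝ ≤ B) (r : ℝ) (hr : 0 ≤ r) :
    mgfK K y r ≤ Real.exp (B * r ^ 2 / 2) * (volume K).toReal := by
  have hcy : Continuous fun x : E => ⟪y, x⟫_ℝ := continuous_const.inner continuous_id
  -- the derivative
  have hM : ∀ r : ℝ, ∫ x in K, ⟪y, x⟫_ℝ * Real.exp (r * ⟪y, x⟫_ℝ)
      = r * ∫ x in K, (∑ i, ⟪z, X i x⟫_ℝ * ⟪y, X i x⟫_ℝ) * Real.exp (r * ⟪y, x⟫_ℝ) := by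
    intro r
    have h1 : ∀ i, ∫ x in K, (⟪z, X i (X i x)⟫_ℝ * Real.exp (r * ⟪y, x⟫_ℝ)
        + r * (⟪z, X i x⟫_ℝ * ⟪y, X i x⟫_ℝ * Real.exp (r * ⟪y, x⟫_ℝ))) = 0 := by
      intro i
      refine ibp (X i) (hX i) K hKc (hK i)
        (fun x => ⟪z, X i x⟫_ℝ * Real.exp (r * ⟪y, x⟫_ℝ)) _ ?_ ?_ ?_
      · exact (continuous_const.inner (X i).continuous).mul
          (Real.continuous_exp.comp (continuous_const.mul hcy))
      · exact ((continuous_const.inner ((X i).continuous.comp (X i).continuous)).mul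
          (Real.continuous_exp.comp (continuous_const.mul hcy))).add
          (continuous_const.mul (((continuous_const.inner (X i).continuous).mul
          (continuous_const.inner (X i).continuous)).mul
          (Real.continuous_exp.comp (continuous_const.mul hcy))))
      · intro x t
        have hfl := hasDerivAt_flow (X i) x t
        have h2 : HasDerivAt (fun t : ℝ => ⟪z, X i (NormedSpace.exp (t • X i) x)⟫_ℝ)
            ⟪z, X i (X i (NormedSpace.exp (t • X i) x))⟫_ℝ t := by
          have h3 := (hasDerivAt_const t z).inner ℝ ((X i).hasFDerivAt.comp_hasDerivAt t hfl)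
          simpa using h3
        have h4 : HasDerivAt (fun t : ℝ => ⟪y, NormedSpace.exp (t • X i) x⟫_ℝ)
            ⟪y, X i (NormedSpace.exp (t • X i) x)⟫_ℝ t := by
          have h3 := (hasDerivAt_const t y).inner ℝ hfl
          simpa using h3
        have h5 := h2.mul (h4.const_mul r).exp
        convert! h5 using 1
        ring
    have hint1 : ∀ i, IntegrableOn (fun x => ⟪z, X i (X i x)⟫_ℝ * Real.exp (r * ⟪y, x⟫_ℝ)) K := by
      intro i
      refine ContinuousOn.integrableOn_compact hKc (Continuous.continuousOn ?_)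
      exact (continuous_const.inner ((X i).continuous.comp (X i).continuous)).mul
          (Real.continuous_exp.comp (continuous_const.mul hcy))
    have hint2 : ∀ i, IntegrableOn (fun x => ⟪z, X i x⟫_ℝ * ⟪y, X i x⟫_ℝ
        * Real.exp (r * ⟪y, x⟫_ℝ)) K := by
      intro i
      refine ContinuousOn.integrableOn_compact hKc (Continuous.continuousOn ?_)
      exact ((continuous_const.inner (X i).continuous).mul
          (continuous_const.inner (X i).continuous)).mul
          (Real.continuous_exp.comp (continuous_const.mul hcy))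
    have h2 : ∀ i, ∫ x in K, ⟪z, X i (X i x)⟫_ℝ * Real.exp (r * ⟪y, x⟫_ℝ)
        = -(r * ∫ x in K, ⟪z, X i x⟫_ℝ * ⟪y, X i x⟫_ℝ * Real.exp (r * ⟪y, x⟫_ℝ)) := by
      intro i
      have h3 := h1 i
      rw [integral_add (hint1 i) ((hint2 i).const_mul r), integral_const_mul] at h3
      linarith
    have h3 : ∀ x, ⟪y, x⟫_ℝ * Real.exp (r * ⟪y, x⟫_ℝ)
        = -∑ i, ⟪z, X i (X i x)⟫_ℝ * Real.exp (r * ⟪y, x⟫_ℝ) := by
      intro x
      conv_lhs => rw [hz x]
      rw [neg_mul, Finset.sum_mul, ← hz x]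
    simp only [h3]
    rw [integral_neg, integral_finsetSum _ fun i _ => hint1 i]
    simp only [h2, Finset.sum_neg_distrib, neg_neg]
    rw [← Finset.mul_sum]
    congr 1
    rw [← integral_finsetSum _ fun i _ => hint2 i]
    congr 1
    ext x
    rw [Finset.sum_mul]
  have hle : ∀ r : ℝ, 0 ≤ r → ∫ x in K, ⟪y, x⟫_ℝ * Real.exp (r * ⟪y, x⟫_ℝ)
      ≤ r * (B * mgfK K y r) := by
    intro r hr
    rw [hM r]
    refine mul_le_mul_of_nonneg_left ?_ hr
    unfold mgfK
    rw [← integral_const_mul]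
    refine setIntegral_mono_on ?_ ?_ hKc.measurableSet fun x hx => ?_
    · refine ContinuousOn.integrableOn_compact hKc (Continuous.continuousOn ?_)
      refine (continuous_finsetSum _ fun i _ => ?_).mul
        (Real.continuous_exp.comp (continuous_const.mul hcy))
      exact (continuous_const.inner (X i).continuous).mul
          (continuous_const.inner (X i).continuous)
    · refine ContinuousOn.integrableOn_compact hKc (Continuous.continuousOn ?_)
      exact continuous_const.mul (Real.continuous_exp.comp (continuous_const.mul hcy))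
    · exact mul_le_mul_of_nonneg_right (hB x hx) (Real.exp_pos _).le
  -- Gronwall
  have hderiv : ∀ r : ℝ, HasDerivAt (fun r => mgfK K y r * Real.exp (-(B * r ^ 2 / 2)))
      ((∫ x in K, ⟪y, x⟫_ℝ * Real.exp (r * ⟪y, x⟫_ℝ)) * Real.exp (-(B * r ^ 2 / 2))
        + mgfK K y r * (Real.exp (-(B * r ^ 2 / 2)) * (-(B * r)))) r := by
    intro r
    have h1 := hasDerivAt_mgfK K hKc y r
    have h2 : HasDerivAt (fun r : ℝ => -(B * r ^ 2 / 2)) (-(B * r)) r := by
      have := (((hasDerivAt_pow 2 r).const_mul B).div_const 2).neg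
      convert! this using 1
      simp
      ring
    exact h1.mul h2.exp
  have hanti : AntitoneOn (fun r => mgfK K y r * Real.exp (-(B * r ^ 2 / 2))) (Set.Ici 0) := by
    refine antitoneOn_of_deriv_nonpos (convex_Ici 0)
      (fun r _ => (hderiv r).continuousAt.continuousWithinAt)
      (fun r _ => (hderiv r).differentiableAt.differentiableWithinAt) ?_
    intro r hr
    rw [interior_Ici] at hr
    rw [(hderiv r).deriv]
    have h1 := hle r (le_of_lt hr)
    have h2 := Real.exp_pos (-(B * r ^ 2 / 2))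
    nlinarith [mul_le_mul_of_nonneg_right h1 h2.le]
  have h := hanti (Set.mem_Ici.mpr le_rfl) (Set.mem_Ici.mpr hr) hr
  have h0 : mgfK K y 0 = (volume K).toReal := by
    simp [mgfK, Measure.real]
  simp only [h0] at h
  have h1 : mgfK K y r = (mgfK K y r * Real.exp (-(B * r ^ 2 / 2)))
      * Real.exp (B * r ^ 2 / 2) := by
    rw [mul_assoc, ← Real.exp_add]
    simp
  rw [h1, mul_comm (Real.exp (B * r ^ 2 / 2))]
  refine mul_le_mul_of_nonneg_right (h.trans (le_of_eq ?_)) (Real.exp_pos _).le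
  simp

end Pool.Agent.TH591.Lie
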