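import Mathlib
import Pool.Agent.TH591.Lie.Mgf

set_option autoImplicit false

/-!
# Gradient estimates on invariant bodies

`X i`, `i ∈ ι`, are skew-adjoint operators on a Euclidean space `E`, the span of which generates a
group preserving the compact set `K`.
-/

namespace Pool.Agent.TH591.Lie

open MeasureTheory
open scoped InnerProductSpace

theorem second_deriv_nonpos (f f' : ℝ → ℝ) (c : ℝ) (h1 : ∀ t, HasDerivAt f (f' t) t)
    (h2 : HasDerivAt f' c 0) (hmax : ∀ t, f t ≤ f 0) : c ≤ 0 := by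
  by_contra hc
  push Not at hc
  have hlm : IsLocalMax f 0 := Filter.Eventually.of_forall hmax
  have h0 : f' 0 = 0 := hlm.hasDerivAt_eq_zero (h1 0)
  have hd : deriv f = f' := funext fun t => (h1 t).deriv
  have hmin : IsLocalMin f 0 := by
    refine isLocalMin_of_deriv_deriv_pos ?_ ?_ (h1 0).continuousAt
    · rw [hd, h2.deriv]; exact hc
    · rw [hd, h0]
  have hconst : f =ᶠ[nhds 0] fun _ => f 0 := by
    filter_upwards [hmin] with t ht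
    exact le_antisymm (hmax t) ht
  have hd' : f' =ᶠ[nhds 0] fun _ => 0 := by
    have h3 := hconst.eventuallyEq_nhds
    filter_upwards [h3] with t ht
    exact (h1 t).unique ((hasDerivAt_const t (f 0)).congr_of_eventuallyEq ht)
  have h4 : HasDerivAt f' 0 0 := (hasDerivAt_const (0 : ℝ) (0 : ℝ)).congr_of_eventuallyEq hd'
  have := h2.unique h4
  linarith

variable {E : Type*} [NormedAddCommGroup E] [InnerProductSpace ℝ E] [FiniteDimensional ℝ E]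
variable {ι : Type*} [Fintype ι]

/-- The combination `∑ a i • X i`. -/
noncomputable def comb (X : ι → E →L[ℝ] E) (a : ι → ℝ) : E →L[ℝ] E := ∑ i, a i • X i

omit [FiniteDimensional ℝ E] in
theorem comb_apply (X : ι → E →L[ℝ] E) (a : ι → ℝ) (x : E) :
    comb X a x = ∑ i, a i • X i x := by
  simp [comb]

omit [FiniteDimensional ℝ E] in
theorem comb_skew (X : ι → E →L[ℝ] E) (hX : ∀ i x y, ⟪X i x, y⟫_ℝ = -⟪x, X i y⟫_ℝ) (a : ι → ℝ)
    (x y : E) : ⟪comb X a x, y⟫_ℝ = -⟪x, comb X a y⟫_ℝ := by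
  rw [comb_apply, comb_apply, sum_inner, inner_sum, ← Finset.sum_neg_distrib]
  refine Finset.sum_congr rfl fun i _ => ?_
  rw [real_inner_smul_left, real_inner_smul_right, hX]
  ring

omit [FiniteDimensional ℝ E] in
theorem smul_comb (X : ι → E →L[ℝ] E) (a : ι → ℝ) (t : ℝ) :
    t • comb X a = comb X (t • a) := by
  simp [comb, Finset.smul_sum, smul_smul]

omit [FiniteDimensional ℝ E] in
theorem comb_single [DecidableEq ι] (X : ι → E →L[ℝ] E) (i : ι) :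
    comb X (Pi.single i 1) = X i := by
  simp [comb, Pi.single_apply]

/-- `K` is invariant under the group generated by the exponentials of the combinations of the
operators `X i`. -/
def Inv (X : ι → E →L[ℝ] E) (K : Set E) : Prop :=
  ∀ a : ι → ℝ, ∀ x ∈ K, NormedSpace.exp (∑ i, a i • X i) x ∈ K

omit [FiniteDimensional ℝ E] in
theorem Inv.flow [DecidableEq ι] {X : ι → E →L[ℝ] E} {K : Set E} (h : Inv X K) (i : ι) (t : ℝ)
    (x : E) (hx : x ∈ K) : NormedSpace.exp (t • X i) x ∈ K := by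
  have h1 := h (t • Pi.single i 1) x hx
  have h2 : ∑ j, (t • (Pi.single i 1 : ι → ℝ)) j • X j = t • X i := by
    have := smul_comb X (Pi.single i 1) t
    rw [comb_single] at this
    rw [this]
    rfl
  rwa [h2] at h1

/-- The gradient of a functional bounded by one is bounded by the largest frequency. -/
theorem grad_le (X : ι → E →L[ℝ] E) (hX : ∀ i x y, ⟪X i x, y⟫_ℝ = -⟪x, X i y⟫_ℝ) (κ : ℝ)
    (hκ : 0 < κ) (hn : ∀ a : ι → ℝ, ∑ i, a i ^ 2 ≤ 1 → ∀ x, ‖∑ i, a i • X i x‖ ≤ κ * ‖x‖)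
    (K : Set E) (hK : Inv X K) (y : E) (hy : ∀ x ∈ K, |⟪y, x⟫_ℝ| ≤ 1) (x : E) (hx : x ∈ K) :
    ∑ i, ⟪y, X i x⟫_ℝ ^ 2 ≤ κ ^ 2 := by
  set s : ℝ := √(∑ i, ⟪y, X i x⟫_ℝ ^ 2) with hs
  have hnn : 0 ≤ ∑ i, ⟪y, X i x⟫_ℝ ^ 2 := Finset.sum_nonneg fun i _ => sq_nonneg _
  have hss : s ^ 2 = ∑ i, ⟪y, X i x⟫_ℝ ^ 2 := Real.sq_sqrt hnn
  rcases eq_or_ne s 0 with h0 | h0
  · rw [← hss, h0]
    nlinarith [sq_nonneg κ]
  have hspos : 0 < s := lt_of_le_of_ne (Real.sqrt_nonneg _) (Ne.symm h0)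
  let a : ι → ℝ := fun i => ⟪y, X i x⟫_ℝ / s
  have ha : ∑ i, a i ^ 2 = 1 := by
    simp only [a, div_pow]
    rw [← Finset.sum_div, ← hss]
    exact div_self (pow_ne_zero _ h0)
  have hb := bern (comb X a) (comb_skew X hX a) κ hκ (fun z => by
    rw [comb_apply]; exact hn a ha.le z) x y (fun t => by
      rw [smul_comb]
      exact hy _ (hK (t • a) x hx))
  have h1 : ⟪y, comb X a x⟫_ℝ = s := by
    rw [comb_apply, inner_sum]
    have : ∀ i, ⟪y, a i • X i x⟫_ℝ = ⟪y, X i x⟫_ℝ ^ 2 / s := by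
      intro i
      rw [real_inner_smul_right]
      simp only [a]
      ring
    simp only [this]
    rw [← Finset.sum_div, ← hss]
    field_simp
  rw [h1, abs_of_pos hspos] at hb
  rw [← hss]
  gcongr

/-- The elliptic maximum principle for the gradient: the Casimir operator `-∑ (X i)^2` commutes with
the operators `X i`, the commutators are bounded from below by `γ`, and `-∑ (X i)^2 z = y`; then the
gradient of `z` is bounded by `4 κ / γ`, where `κ` bounds the gradient of `y`. -/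
theorem grad_le_of_casimir [DecidableEq ι] (X : ι → E →L[ℝ] E)
    (hcas : ∀ j x, ∑ i, X j (X i (X i x)) = ∑ i, X i (X i (X j x))) (γ : ℝ) (hγ : 0 < γ)
    (hkill : ∀ z x : E, γ * ∑ k, ⟪z, X k x⟫_ℝ ^ 2
      ≤ ∑ i, ∑ j, ⟪z, X i (X j x) - X j (X i x)⟫_ℝ ^ 2)
    (K : Set E) (hKc : IsCompact K) (hK : Inv X K) (y z : E)
    (hz : ∀ x, ⟪y, x⟫_ℝ = -∑ i, ⟪z, X i (X i x)⟫_ℝ) (κ : ℝ) (hκ : 0 ≤ κ)
    (hy : ∀ x ∈ K, ∑ i, ⟪y, X i x⟫_ℝ ^ 2 ≤ κ ^ 2) (x : E) (hx : x ∈ K) :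
    ∑ i, ⟪z, X i x⟫_ℝ ^ 2 ≤ (4 * κ / γ) ^ 2 := by
  -- the maximum
  let u : E → ℝ := fun x => ∑ j, ⟪z, X j x⟫_ℝ ^ 2
  have hucont : Continuous u :=
    continuous_finsetSum _ fun j _ => (continuous_const.inner (X j).continuous).pow 2
  obtain ⟨x₀, hx₀, hmax⟩ := hKc.exists_isMaxOn ⟨x, hx⟩ hucont.continuousOn
  have hmax' : ∀ w ∈ K, u w ≤ u x₀ := fun w hw => hmax hw
  -- second derivatives
  have hsec : ∀ i, ∑ j, (2 * (⟪z, X j (X i (X i x₀))⟫_ℝ * ⟪z, X j x₀⟫_ℝ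
      + ⟪z, X j (X i x₀)⟫_ℝ * ⟪z, X j (X i x₀)⟫_ℝ)) ≤ 0 := by
    intro i
    have hfl := hasDerivAt_flow (X i) x₀
    have hd0 : ∀ j t, HasDerivAt (fun t : ℝ => ⟪z, X j (NormedSpace.exp (t • X i) x₀)⟫_ℝ)
        ⟪z, X j (X i (NormedSpace.exp (t • X i) x₀))⟫_ℝ t := by
      intro j t
      have h3 := (hasDerivAt_const t z).inner ℝ ((X j).hasFDerivAt.comp_hasDerivAt t (hfl t))
      simpa using h3
    have hd1 : ∀ j t, HasDerivAt (fun t : ℝ => ⟪z, X j (X i (NormedSpace.exp (t • X i) x₀))⟫_ℝ)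
        ⟪z, X j (X i (X i (NormedSpace.exp (t • X i) x₀)))⟫_ℝ t := by
      intro j t
      have h3 := (hasDerivAt_const t z).inner ℝ
        (((X j).comp (X i)).hasFDerivAt.comp_hasDerivAt t (hfl t))
      simpa using h3
    refine second_deriv_nonpos (fun t : ℝ => u (NormedSpace.exp (t • X i) x₀))
      (fun t : ℝ => ∑ j, 2 * (⟪z, X j (X i (NormedSpace.exp (t • X i) x₀))⟫_ℝ
        * ⟪z, X j (NormedSpace.exp (t • X i) x₀)⟫_ℝ)) _ ?_ ?_ ?_
    · intro t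
      refine HasDerivAt.fun_sum fun j _ => ?_
      have := (hd0 j t).pow 2
      convert! this using 1
      simp
      ring
    · have : HasDerivAt (fun t : ℝ => ∑ j, 2 * (⟪z, X j (X i (NormedSpace.exp (t • X i) x₀))⟫_ℝ
        * ⟪z, X j (NormedSpace.exp (t • X i) x₀)⟫_ℝ))
        (∑ j, 2 * (⟪z, X j (X i (X i (NormedSpace.exp ((0 : ℝ) • X i) x₀)))⟫_ℝ
          * ⟪z, X j (NormedSpace.exp ((0 : ℝ) • X i) x₀)⟫_ℝ
          + ⟪z, X j (X i (NormedSpace.exp ((0 : ℝ) • X i) x₀))⟫_ℝ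
            * ⟪z, X j (X i (NormedSpace.exp ((0 : ℝ) • X i) x₀))⟫_ℝ)) 0 := by
        refine HasDerivAt.fun_sum fun j _ => ?_
        exact ((hd1 j 0).mul (hd0 j 0)).const_mul 2
      simpa only [flow_zero] using this
    · intro t
      simp only [flow_zero]
      exact hmax' _ (hK.flow i t x₀ hx₀)
  have hsum := Finset.sum_nonpos fun i (_ : i ∈ Finset.univ) => hsec i
  -- the first order term
  have hfirst : ∀ j, ∑ i, ⟪z, X j (X i (X i x₀))⟫_ℝ = -⟪y, X j x₀⟫_ℝ := by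
    intro j
    rw [hz (X j x₀), neg_neg, ← inner_sum, hcas j x₀, inner_sum]
  have hsum2 : ∑ i, ∑ j, ⟪z, X j (X i x₀)⟫_ℝ ^ 2 ≤ ∑ j, ⟪y, X j x₀⟫_ℝ * ⟪z, X j x₀⟫_ℝ := by
    have e : ∑ i, ∑ j, (2 * (⟪z, X j (X i (X i x₀))⟫_ℝ * ⟪z, X j x₀⟫_ℝ
        + ⟪z, X j (X i x₀)⟫_ℝ * ⟪z, X j (X i x₀)⟫_ℝ))
        = 2 * (∑ i, ∑ j, ⟪z, X j (X i x₀)⟫_ℝ ^ 2) - 2 * ∑ j, ⟪y, X j x₀⟫_ℝ * ⟪z, X j x₀⟫_ℝ := by
      simp only [← Finset.mul_sum, Finset.sum_add_distrib]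
      rw [Finset.sum_comm (f := fun i j => ⟪z, X j (X i (X i x₀))⟫_ℝ * ⟪z, X j x₀⟫_ℝ)]
      simp only [← Finset.sum_mul, hfirst, neg_mul, Finset.sum_neg_distrib, ← pow_two]
      ring
    rw [e] at hsum
    linarith
  -- the commutator bound
  have hcomm : γ / 4 * ∑ k, ⟪z, X k x₀⟫_ℝ ^ 2 ≤ ∑ i, ∑ j, ⟪z, X j (X i x₀)⟫_ℝ ^ 2 := by
    have h1 := hkill z x₀
    have h2 : ∀ i j, ⟪z, X i (X j x₀) - X j (X i x₀)⟫_ℝ ^ 2
        ≤ 2 * ⟪z, X j (X i x₀)⟫_ℝ ^ 2 + 2 * ⟪z, X i (X j x₀)⟫_ℝ ^ 2 := by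
      intro i j
      rw [inner_sub_right]
      nlinarith [sq_nonneg (⟪z, X i (X j x₀)⟫_ℝ + ⟪z, X j (X i x₀)⟫_ℝ)]
    have h3 : ∑ i, ∑ j, ⟪z, X i (X j x₀) - X j (X i x₀)⟫_ℝ ^ 2
        ≤ 4 * ∑ i, ∑ j, ⟪z, X j (X i x₀)⟫_ℝ ^ 2 := by
      calc ∑ i, ∑ j, ⟪z, X i (X j x₀) - X j (X i x₀)⟫_ℝ ^ 2
          ≤ ∑ i, ∑ j, (2 * ⟪z, X j (X i x₀)⟫_ℝ ^ 2 + 2 * ⟪z, X i (X j x₀)⟫_ℝ ^ 2) :=
            Finset.sum_le_sum fun i _ => Finset.sum_le_sum fun j _ => h2 i j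
        _ = 4 * ∑ i, ∑ j, ⟪z, X j (X i x₀)⟫_ℝ ^ 2 := by
            simp only [Finset.sum_add_distrib, ← Finset.mul_sum]
            rw [Finset.sum_comm (f := fun i j => ⟪z, X i (X j x₀)⟫_ℝ ^ 2)]
            ring
    linarith
  -- Cauchy-Schwarz
  set s : ℝ := √(u x₀) with hs
  have hu0 : 0 ≤ u x₀ := Finset.sum_nonneg fun i _ => sq_nonneg _
  have hs2 : s ^ 2 = u x₀ := Real.sq_sqrt hu0
  have hs0 : 0 ≤ s := Real.sqrt_nonneg _
  have hCS : ∑ j, ⟪y, X j x₀⟫_ℝ * ⟪z, X j x₀⟫_ℝ ≤ κ * s := by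
    refine (Real.sum_mul_le_sqrt_mul_sqrt _ _ _).trans ?_
    refine mul_le_mul ?_ le_rfl hs0 hκ
    rw [Real.sqrt_le_left hκ]
    exact hy x₀ hx₀
  have hfin : γ / 4 * s ^ 2 ≤ κ * s := by
    rw [hs2]
    exact hcomm.trans (hsum2.trans hCS)
  have hs1 : s ≤ 4 * κ / γ := by
    rcases eq_or_lt_of_le hs0 with h0 | h0
    · rw [← h0]; positivity
    · rw [le_div_iff₀ hγ]
      have : γ / 4 * s ≤ κ := by
        by_contra hcon
        push Not at hcon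
        nlinarith
      linarith
  calc ∑ i, ⟪z, X i x⟫_ℝ ^ 2 ≤ u x₀ := hmax' x hx
    _ = s ^ 2 := hs2.symm
    _ ≤ (4 * κ / γ) ^ 2 := by gcongr

omit [FiniteDimensional ℝ E] in
/-- The Casimir operator of a Lie algebra with totally antisymmetric structure constants. -/
theorem casimir_comm (X : ι → E →L[ℝ] E)
    (c : ι → ι → ι → ℝ) (hc : ∀ i j x, X i (X j x) - X j (X i x) = ∑ k, c i j k • X k x)
    (hanti : ∀ i j k, c i j k = -c k j i) (j : ι) (x : E) :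
    ∑ i, X j (X i (X i x)) = ∑ i, X i (X i (X j x)) := by
  have h1 : ∀ i, X i (X i (X j x)) - X j (X i (X i x))
      = (∑ k, c i j k • X i (X k x)) + ∑ k, c i j k • X k (X i x) := by
    intro i
    have e1 := hc i j (X i x)
    have e2 : X i (X i (X j x)) - X i (X j (X i x)) = ∑ k, c i j k • X i (X k x) := by
      rw [← map_sub, hc i j x, map_sum]
      simp only [map_smul]
    rw [← e1, ← e2]
    abel
  have h2 : ∑ i, (X i (X i (X j x)) - X j (X i (X i x))) = 0 := by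
    simp only [h1]
    rw [Finset.sum_add_distrib]
    rw [Finset.sum_comm (f := fun i k => c i j k • X k (X i x))]
    rw [← Finset.sum_add_distrib]
    refine Finset.sum_eq_zero fun i _ => ?_
    rw [← Finset.sum_add_distrib]
    refine Finset.sum_eq_zero fun k _ => ?_
    rw [hanti k j i, neg_smul, add_neg_cancel]
  rw [Finset.sum_sub_distrib, sub_eq_zero] at h2
  exact h2.symm

omit [FiniteDimensional ℝ E] in
theorem kill_bound (X : ι → E →L[ℝ] E)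
    (c : ι → ι → ι → ℝ) (hc : ∀ i j x, X i (X j x) - X j (X i x) = ∑ k, c i j k • X k x)
    (γ : ℝ) (hkill : ∀ v : ι → ℝ, γ * ∑ k, v k ^ 2 ≤ ∑ i, ∑ j, (∑ k, c i j k * v k) ^ 2)
    (z x : E) : γ * ∑ k, ⟪z, X k x⟫_ℝ ^ 2
      ≤ ∑ i, ∑ j, ⟪z, X i (X j x) - X j (X i x)⟫_ℝ ^ 2 := by
  refine (hkill fun k => ⟪z, X k x⟫_ℝ).trans (le_of_eq ?_)
  refine Finset.sum_congr rfl fun i _ => Finset.sum_congr rfl fun j _ => ?_
  rw [hc i j x, inner_sum]
  simp only [real_inner_smul_right]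

end Pool.Agent.TH591.Lie
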