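import Mathlib
import Pool.Agent.Results.MP_eba1ef_gt.ThinSlabs

set_option autoImplicit false

/-!
# Covering bodies all functionals of which are thin

A transfer of the theorem on thin slabs to an arbitrary Euclidean space.
-/

namespace Pool.Agent.TH591.Lie

open MeasureTheory
open scoped InnerProductSpace
open Pool.Agent.Results.MP_eba1ef_gt

/-- Hahn-Banach for the gauge. -/
theorem exists_norming {F : Type*} [NormedAddCommGroup F] [NormedSpace ℝ F]
    [FiniteDimensional ℝ F] (K : Set F) (hK : Convex ℝ K) (h0 : K ∈ nhds (0 : F)) (z : F) :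
    ∃ φ : F →L[ℝ] ℝ, φ z = gauge K z ∧ ∀ x, φ x ≤ gauge K x := by
  have habs : Absorbent ℝ K := absorbent_nhds_zero h0
  rcases eq_or_ne z 0 with rfl | hz
  · exact ⟨0, by simp, fun x => by simpa using gauge_nonneg x⟩
  let f : F →ₗ.[ℝ] ℝ := LinearPMap.mkSpanSingleton z (gauge K z) hz
  obtain ⟨g, hg1, hg2⟩ := exists_extension_of_le_sublinear f (gauge K)
    (fun c hc x => gauge_smul_of_nonneg hc.le x) (fun x y => gauge_add_le hK habs x y) (by
      rintro ⟨x, hx⟩
      obtain ⟨t, rfl⟩ := Submodule.mem_span_singleton.mp hx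
      have e : f ⟨t • z, hx⟩ = t • gauge K z :=
        LinearPMap.mkSpanSingleton'_apply _ _ _ _ _
      rw [e, smul_eq_mul]
      rcases le_or_gt 0 t with ht | ht
      · exact le_of_eq (gauge_smul_of_nonneg ht z).symm
      · exact (mul_nonpos_of_nonpos_of_nonneg ht.le (gauge_nonneg _)).trans (gauge_nonneg _))
  refine ⟨LinearMap.toContinuousLinearMap g, ?_, fun x => hg2 x⟩
  have h1 := hg1 ⟨z, Submodule.mem_span_singleton_self z⟩
  have e : f ⟨z, Submodule.mem_span_singleton_self z⟩ = gauge K z :=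
    LinearPMap.mkSpanSingleton_apply ℝ ℝ hz (gauge K z)
  rw [e] at h1
  exact h1

variable {E : Type*} [NormedAddCommGroup E] [InnerProductSpace ℝ E] [FiniteDimensional ℝ E]
  [MeasurableSpace E] [BorelSpace E]

/-- A body all functionals of which are thin. -/
theorem cover_of_thin (K : Set E) (hd : 2 ≤ Module.finrank ℝ E)
    (hK : Convex ℝ K) (hKc : IsCompact K) (hKi : (interior K).Nonempty)
    (hKs : ∀ x ∈ K, -x ∈ K) (τ : ℝ) (hτ : 0 < τ)
    (hthin : ∀ y : E, (∀ x ∈ K, |⟪y, x⟫_ℝ| ≤ 1) →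
      (volume {x ∈ K | 1 / 4 ≤ |⟪y, x⟫_ℝ|}).toReal ≤ τ * (volume K).toReal) :
    ∃ T : Finset E, K ⊆ ⋃ t ∈ T, (fun x => t + x) '' interior K ∧
      (T.card : ℝ) ≤ 1 + 12 * Module.finrank ℝ E * Real.log (4 * Module.finrank ℝ E + 1)
        * 2 ^ Module.finrank ℝ E * τ ^ (1 / 16 : ℝ) ∧
      (17 * Module.finrank ℝ E * Real.log (4 * Module.finrank ℝ E + 1) * τ ^ (1 / 16 : ℝ) ≤ 1 →
        T.card < 2 ^ Module.finrank ℝ E) := by
  classical
  set d := Module.finrank ℝ E with hdd
  let e : E ≃ₗᵢ[ℝ] EuclideanSpace ℝ (Fin d) := (stdOrthonormalBasis ℝ E).repr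
  let K' : Set (EuclideanSpace ℝ (Fin d)) := e '' K
  have hK' : Convex ℝ K' := hK.linear_image e.toLinearEquiv.toLinearMap
  have hKc' : IsCompact K' := hKc.image e.continuous
  have hint : interior K' = e '' interior K := (e.toHomeomorph.image_interior K).symm
  have hKi' : (interior K').Nonempty := by rw [hint]; exact hKi.image _
  have hKs' : ∀ x ∈ K', -x ∈ K' := by
    rintro _ ⟨x, hx, rfl⟩
    exact ⟨-x, hKs x hx, by simp⟩
  -- `0` is an interior point
  have h0 : K' ∈ nhds (0 : EuclideanSpace ℝ (Fin d)) := by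
    obtain ⟨z, hz⟩ := hKi'
    have hnegK : -K' = K' := by
      ext x
      rw [Set.mem_neg]
      exact ⟨fun h => by simpa using hKs' _ h, fun h => hKs' x h⟩
    have hz' : -z ∈ interior K' := by
      have h1 : -z ∈ -(interior K') := by simpa using hz
      have h2 : -(interior K') = interior (-K') := by
        rw [← Set.image_neg_eq_neg, ← Set.image_neg_eq_neg]
        exact (Homeomorph.neg _).image_interior K'
      rw [h2, hnegK] at h1
      exact h1
    have h := hK'.interior hz hz' (show (0 : ℝ) ≤ 1 / 2 by norm_num)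
      (show (0 : ℝ) ≤ 1 / 2 by norm_num) (by norm_num)
    have e : (1 / 2 : ℝ) • z + (1 / 2 : ℝ) • (-z) = 0 := by
      rw [smul_neg, add_neg_cancel]
    rw [e] at h
    exact mem_interior_iff_mem_nhds.mp h
  have hpre : ∀ s : Set (EuclideanSpace ℝ (Fin d)), volume (e ⁻¹' s) = volume s := by
    intro s
    exact e.measurePreserving.measure_preimage_emb e.toHomeomorph.measurableEmbedding s
  have hthin' : K' ⊆ ThinSlabs.thinPart K' τ := by
    intro z hz
    obtain ⟨φ, hφz, hφ⟩ := exists_norming K' hK' h0 z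
    have hφ1 : ∀ x ∈ K', |φ x| ≤ 1 := by
      intro x hx
      rw [abs_le]
      have h1 := (hφ x).trans (gauge_le_one_of_mem hx)
      have h2 := (hφ (-x)).trans (gauge_le_one_of_mem (hKs' x hx))
      rw [map_neg] at h2
      constructor <;> linarith
    refine ⟨hz, φ, ⟨hφ1, ?_⟩, hφz⟩
    let y : E := (InnerProductSpace.toDual ℝ E).symm
      (φ.comp (e.toContinuousLinearEquiv : E →L[ℝ] EuclideanSpace ℝ (Fin d)))
    have hy : ∀ x, ⟪y, x⟫_ℝ = φ (e x) := by
      intro x
      simp only [y]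
      rw [InnerProductSpace.toDual_symm_apply]
      rfl
    have h1 := hthin y (fun x hx => by rw [hy]; exact hφ1 _ ⟨x, hx, rfl⟩)
    have e1 : e ⁻¹' K' = K := Set.preimage_image_eq K e.injective
    have e2 : {x ∈ K | 1 / 4 ≤ |⟪y, x⟫_ℝ|} = e ⁻¹' {z ∈ K' | 1 / 4 ≤ |φ z|} := by
      ext x
      simp only [Set.mem_ofPred_eq, Set.mem_preimage, hy]
      rw [← Set.mem_preimage, e1]
    rw [e2, hpre] at h1
    have e3 : volume K = volume K' := by rw [← hpre K', e1]
    rwa [e3] at h1
  have hmono : 1 * (volume K').toReal ≤ (volume (ThinSlabs.thinPart K' τ)).toReal := by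
    rw [one_mul]
    refine ENNReal.toReal_mono ?_ (measure_mono hthin')
    exact ne_top_of_le_ne_top hKc'.measure_lt_top.ne (measure_mono fun z hz => hz.1)
  obtain ⟨T, hT1, hT2, hT3⟩ := (ThinSlabs.result d hd K' hK' hKc' hKi' hKs').1 τ 1 hτ one_pos
    le_rfl hmono
  refine ⟨T.image e.symm, ?_, ?_, ?_⟩
  · intro x hx
    have h := hT1 ⟨x, hx, rfl⟩
    simp only [Set.mem_iUnion] at h ⊢
    obtain ⟨t, ht, w, hw, hwt⟩ := h
    rw [hint] at hw
    obtain ⟨w', hw', rfl⟩ := hw
    refine ⟨e.symm t, Finset.mem_image_of_mem _ ht, w', hw', ?_⟩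
    apply e.injective
    simpa using hwt
  · refine le_trans ?_ hT2
    exact_mod_cast Finset.card_image_le
  · intro h
    exact lt_of_le_of_lt Finset.card_image_le (hT3 h)

end Pool.Agent.TH591.Lie
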