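import Mathlib
import Pool.Agent.TH591.Lie.Alg
import Pool.Agent.TH591.Lie.Cover

set_option autoImplicit false

/-!
# Covering convex bodies with a compact Lie group of symmetries
-/

namespace Pool.Agent.TH591.Lie

open MeasureTheory
open scoped InnerProductSpace

variable {E : Type*} [NormedAddCommGroup E] [InnerProductSpace ℝ E] [FiniteDimensional ℝ E]
  [MeasurableSpace E] [BorelSpace E]

theorem half_tail (K : Set E) (hKc : IsCompact K) (y : E) (B : ℝ) (hB : 0 < B)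
    (h : ∀ r : ℝ, 0 ≤ r → mgfK K y r ≤ Real.exp (B * r ^ 2 / 2) * (volume K).toReal) :
    (volume {x ∈ K | 1 / 4 ≤ ⟪y, x⟫_ℝ}).toReal
      ≤ Real.exp (-1 / (32 * B)) * (volume K).toReal := by
  have hcy : Continuous fun x : E => ⟪y, x⟫_ℝ := continuous_const.inner continuous_id
  set r : ℝ := 1 / (4 * B) with hr
  have hr0 : 0 < r := by rw [hr]; positivity
  have h1 := h r hr0.le
  have h2 := mul_meas_ge_le_integral_of_nonneg (μ := volume.restrict K)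
    (f := fun x => Real.exp (r * ⟪y, x⟫_ℝ))
    (Filter.Eventually.of_forall fun x => (Real.exp_pos _).le)
    (ContinuousOn.integrableOn_compact hKc
      (Real.continuous_exp.comp (continuous_const.mul hcy)).continuousOn) (Real.exp (r * (1 / 4)))
  have hset : {x | Real.exp (r * (1 / 4)) ≤ Real.exp (r * ⟪y, x⟫_ℝ)} = {x | 1 / 4 ≤ ⟪y, x⟫_ℝ} := by
    ext x
    simp only [Set.mem_ofPred_eq, Real.exp_le_exp]
    exact ⟨fun h => le_of_mul_le_mul_left h hr0, fun h => mul_le_mul_of_nonneg_left h hr0.le⟩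
  have hms : MeasurableSet {x : E | 1 / 4 ≤ ⟪y, x⟫_ℝ} :=
    (isClosed_le continuous_const hcy).measurableSet
  rw [hset, measureReal_restrict_apply hms] at h2
  have e : {x : E | 1 / 4 ≤ ⟪y, x⟫_ℝ} ∩ K = {x ∈ K | 1 / 4 ≤ ⟪y, x⟫_ℝ} := by
    ext x
    simp only [Set.mem_inter_iff, Set.mem_ofPred_eq]
    exact and_comm
  rw [e] at h2
  have h3 : Real.exp (r * (1 / 4)) * (volume {x ∈ K | 1 / 4 ≤ ⟪y, x⟫_ℝ}).toReal
      ≤ Real.exp (B * r ^ 2 / 2) * (volume K).toReal := h2.trans h1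
  have h4 : (volume {x ∈ K | 1 / 4 ≤ ⟪y, x⟫_ℝ}).toReal
      = Real.exp (-(r * (1 / 4))) * (Real.exp (r * (1 / 4))
        * (volume {x ∈ K | 1 / 4 ≤ ⟪y, x⟫_ℝ}).toReal) := by
    rw [← mul_assoc, ← Real.exp_add]
    simp
  rw [h4]
  refine (mul_le_mul_of_nonneg_left h3 (Real.exp_pos _).le).trans (le_of_eq ?_)
  rw [← mul_assoc, ← Real.exp_add]
  congr 2
  rw [hr]
  field_simp
  ring

theorem tail_le {ι : Type*} [Fintype ι] [DecidableEq ι] (X : ι → E →L[ℝ] E)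
    (hX : ∀ i x y, ⟪X i x, y⟫_ℝ = -⟪x, X i y⟫_ℝ) (K : Set E)
    (hKc : IsCompact K) (hK : Inv X K)
    (y z : E) (hz : ∀ x, ⟪y, x⟫_ℝ = -∑ i, ⟪z, X i (X i x)⟫_ℝ) (B : ℝ) (hB0 : 0 < B)
    (hB : ∀ x ∈ K, ∑ i, ⟪z, X i x⟫_ℝ * ⟪y, X i x⟫_ℝ ≤ B) :
    (volume {x ∈ K | 1 / 4 ≤ |⟪y, x⟫_ℝ|}).toReal
      ≤ 2 * Real.exp (-1 / (32 * B)) * (volume K).toReal := by
  have h1 := half_tail K hKc y B hB0 fun r hr =>
    mgf_le X hX K hKc (fun i t x hx => hK.flow i t x hx) y z hz B hB r hr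
  have h2 := half_tail K hKc (-y) B hB0 fun r hr =>
    mgf_le X hX K hKc (fun i t x hx => hK.flow i t x hx) (-y) (-z) (fun x => by
      simp only [inner_neg_left, Finset.sum_neg_distrib, hz x]) B (fun x hx => by
      simpa only [inner_neg_left, neg_mul_neg] using hB x hx) r hr
  have hsub : {x ∈ K | 1 / 4 ≤ |⟪y, x⟫_ℝ|}
      ⊆ {x ∈ K | 1 / 4 ≤ ⟪y, x⟫_ℝ} ∪ {x ∈ K | 1 / 4 ≤ ⟪-y, x⟫_ℝ} := by
    rintro x ⟨hx, h⟩
    rcases le_abs.mp h with h | h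
    · exact Or.inl ⟨hx, h⟩
    · exact Or.inr ⟨hx, by rw [inner_neg_left]; exact h⟩
  have hf : ∀ w : E, volume {x ∈ K | 1 / 4 ≤ ⟪w, x⟫_ℝ} ≠ ⊤ := fun w =>
    ne_top_of_le_ne_top hKc.measure_lt_top.ne (measure_mono fun z hz => hz.1)
  have h3 := ENNReal.toReal_mono (ENNReal.add_ne_top.mpr ⟨hf y, hf (-y)⟩)
    ((measure_mono hsub).trans (measure_union_le _ _))
  rw [ENNReal.toReal_add (hf _) (hf _)] at h3
  linarith

/-- The preimage under the Casimir operator. -/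
theorem exists_casimir_preimage {E : Type*} [NormedAddCommGroup E] [InnerProductSpace ℝ E]
    [FiniteDimensional ℝ E] {ι : Type*} [Fintype ι] (X : ι → E →L[ℝ] E)
    (hX : ∀ i x y, ⟪X i x, y⟫_ℝ = -⟪x, X i y⟫_ℝ) (hfix : ∀ x, (∀ i, X i x = 0) → x = 0)
    (y : E) : ∃ z, ∀ x, ⟪y, x⟫_ℝ = -∑ i, ⟪z, X i (X i x)⟫_ℝ := by
  let A : E →ₗ[ℝ] E := -∑ i, ((X i : E →ₗ[ℝ] E) ∘ₗ (X i : E →ₗ[ℝ] E))
  have hA : ∀ z, A z = -∑ i, X i (X i z) := by
    intro z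
    simp [A]
  have hinj : Function.Injective A := by
    rw [← LinearMap.ker_eq_bot, LinearMap.ker_eq_bot']
    intro z hz
    apply hfix
    have h1 : ⟪z, A z⟫_ℝ = ∑ i, ‖X i z‖ ^ 2 := by
      rw [hA, inner_neg_right, inner_sum, ← Finset.sum_neg_distrib]
      refine Finset.sum_congr rfl fun i _ => ?_
      rw [← hX, real_inner_self_eq_norm_sq]
    rw [hz, inner_zero_right] at h1
    have h2 := (Finset.sum_eq_zero_iff_of_nonneg fun i _ => sq_nonneg (‖X i z‖)).mp h1.symm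
    intro i
    have := h2 i (Finset.mem_univ i)
    simpa using this
  obtain ⟨z, hz⟩ := (LinearMap.injective_iff_surjective.mp hinj) y
  refine ⟨z, fun x => ?_⟩
  rw [← hz, hA, inner_neg_left, sum_inner]
  congr 1
  refine Finset.sum_congr rfl fun i _ => ?_
  rw [hX, hX, neg_neg]

theorem two_rpow_le : (2 : ℝ) ^ (1 / 16 : ℝ) ≤ 18 / 17 := by
  have h1 : ((2 : ℝ) ^ (1 / 16 : ℝ)) ^ (16 : ℕ) = 2 := by
    rw [← Real.rpow_natCast, ← Real.rpow_mul (by norm_num)]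
    norm_num
  by_contra h
  push Not at h
  have h2 : (18 / 17 : ℝ) ^ (16 : ℕ) < ((2 : ℝ) ^ (1 / 16 : ℝ)) ^ (16 : ℕ) := by gcongr
  rw [h1] at h2
  norm_num at h2

/-- The covering bound for a body all functionals of which have small tails. -/
theorem cover_of_tail (K : Set E) (hd : 2 ≤ Module.finrank ℝ E)
    (hK : Convex ℝ K) (hKc : IsCompact K) (hKi : (interior K).Nonempty)
    (hKs : ∀ x ∈ K, -x ∈ K) (m : ℝ)
    (hthin : ∀ y : E, (∀ x ∈ K, |⟪y, x⟫_ℝ| ≤ 1) →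
      (volume {x ∈ K | 1 / 4 ≤ |⟪y, x⟫_ℝ|}).toReal ≤ 2 * Real.exp (-m) * (volume K).toReal) :
    ∃ T : Finset E, K ⊆ ⋃ t ∈ T, (fun x => t + x) '' interior K ∧
      (T.card : ℝ) ≤ 1 + 13 * Module.finrank ℝ E * Real.log (4 * Module.finrank ℝ E + 1)
        * 2 ^ Module.finrank ℝ E * Real.exp (-(m / 16)) ∧
      (18 * Module.finrank ℝ E * Real.log (4 * Module.finrank ℝ E + 1)
        * Real.exp (-(m / 16)) ≤ 1 → T.card < 2 ^ Module.finrank ℝ E) := by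
  obtain ⟨T, hT1, hT2, hT3⟩ := cover_of_thin K hd hK hKc hKi hKs (2 * Real.exp (-m))
    (by positivity) hthin
  have hp : (2 * Real.exp (-m)) ^ (1 / 16 : ℝ) ≤ 18 / 17 * Real.exp (-(m / 16)) := by
    rw [Real.mul_rpow (by norm_num) (Real.exp_pos _).le, ← Real.exp_mul]
    have e : -m * (1 / 16) = -(m / 16) := by ring
    rw [e]
    exact mul_le_mul_of_nonneg_right two_rpow_le (Real.exp_pos _).le
  have hd' : (2 : ℝ) ≤ Module.finrank ℝ E := by exact_mod_cast hd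
  have hlog : 0 ≤ Real.log (4 * Module.finrank ℝ E + 1) := Real.log_nonneg (by linarith)
  have hex := Real.exp_pos (-(m / 16))
  refine ⟨T, hT1, ?_, fun h => hT3 ?_⟩
  · refine hT2.trans ?_
    have h1 : 12 * (Module.finrank ℝ E : ℝ) * Real.log (4 * Module.finrank ℝ E + 1)
        * 2 ^ Module.finrank ℝ E * (2 * Real.exp (-m)) ^ (1 / 16 : ℝ)
        ≤ 12 * Module.finrank ℝ E * Real.log (4 * Module.finrank ℝ E + 1)
        * 2 ^ Module.finrank ℝ E * (18 / 17 * Real.exp (-(m / 16))) := by gcongr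
    have h2 : 0 ≤ (Module.finrank ℝ E : ℝ) * Real.log (4 * Module.finrank ℝ E + 1)
        * 2 ^ Module.finrank ℝ E * Real.exp (-(m / 16)) := by positivity
    nlinarith
  · have h1 : 17 * (Module.finrank ℝ E : ℝ) * Real.log (4 * Module.finrank ℝ E + 1)
        * (2 * Real.exp (-m)) ^ (1 / 16 : ℝ)
        ≤ 17 * Module.finrank ℝ E * Real.log (4 * Module.finrank ℝ E + 1)
        * (18 / 17 * Real.exp (-(m / 16))) := by gcongr
    refine h1.trans (le_trans (le_of_eq ?_) h)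
    ring

/-- **Bodies with a compact semisimple group of symmetries.** -/
theorem cover_casimir {ι : Type*} [Fintype ι] (X : ι → E →L[ℝ] E)
    (hX : ∀ i x y, ⟪X i x, y⟫_ℝ = -⟪x, X i y⟫_ℝ)
    (hcas : ∀ j x, ∑ i, X j (X i (X i x)) = ∑ i, X i (X i (X j x))) (γ : ℝ) (hγ : 0 < γ)
    (hkill : ∀ z x : E, γ * ∑ k, ⟪z, X k x⟫_ℝ ^ 2
      ≤ ∑ i, ∑ j, ⟪z, X i (X j x) - X j (X i x)⟫_ℝ ^ 2)
    (hfix : ∀ x, (∀ i, X i x = 0) → x = 0) (κ : ℝ) (hκ : 0 < κ)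
    (hn : ∀ a : ι → ℝ, ∑ i, a i ^ 2 ≤ 1 → ∀ x, ‖∑ i, a i • X i x‖ ≤ κ * ‖x‖)
    (K : Set E) (hd : 2 ≤ Module.finrank ℝ E)
    (hK : Convex ℝ K) (hKc : IsCompact K) (hKi : (interior K).Nonempty)
    (hKs : ∀ x ∈ K, -x ∈ K) (hinv : Inv X K) :
    ∃ T : Finset E, K ⊆ ⋃ t ∈ T, (fun x => t + x) '' interior K ∧
      (T.card : ℝ) ≤ 1 + 13 * Module.finrank ℝ E * Real.log (4 * Module.finrank ℝ E + 1)
        * 2 ^ Module.finrank ℝ E * Real.exp (-(γ / (2048 * κ ^ 2))) ∧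
      (18 * Module.finrank ℝ E * Real.log (4 * Module.finrank ℝ E + 1)
        * Real.exp (-(γ / (2048 * κ ^ 2))) ≤ 1 → T.card < 2 ^ Module.finrank ℝ E) := by
  classical
  have h := cover_of_tail K hd hK hKc hKi hKs (γ / (128 * κ ^ 2)) ?_
  · have e : γ / (128 * κ ^ 2) / 16 = γ / (2048 * κ ^ 2) := by
      field_simp
      norm_num
    rwa [e] at h
  · intro y hy
    obtain ⟨z, hz⟩ := exists_casimir_preimage X hX hfix y
    have hgy := grad_le X hX κ hκ hn K hinv y hy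
    have hgz := grad_le_of_casimir X hcas γ hγ hkill K hKc hinv y z hz κ hκ.le
      (fun x hx => hgy x hx)
    have hB : ∀ x ∈ K, ∑ i, ⟪z, X i x⟫_ℝ * ⟪y, X i x⟫_ℝ ≤ 4 * κ ^ 2 / γ := by
      intro x hx
      refine (Real.sum_mul_le_sqrt_mul_sqrt _ _ _).trans ?_
      have h1 : √(∑ i, ⟪z, X i x⟫_ℝ ^ 2) ≤ 4 * κ / γ := by
        rw [Real.sqrt_le_left (by positivity)]
        exact hgz x hx
      have h2 : √(∑ i, ⟪y, X i x⟫_ℝ ^ 2) ≤ κ := by
        rw [Real.sqrt_le_left hκ.le]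
        exact hgy x hx
      calc √(∑ i, ⟪z, X i x⟫_ℝ ^ 2) * √(∑ i, ⟪y, X i x⟫_ℝ ^ 2) ≤ 4 * κ / γ * κ :=
            mul_le_mul h1 h2 (Real.sqrt_nonneg _) (by positivity)
        _ = 4 * κ ^ 2 / γ := by ring
    have ht := tail_le X hX K hKc hinv y z hz (4 * κ ^ 2 / γ) (by positivity) hB
    have e : -1 / (32 * (4 * κ ^ 2 / γ)) = -(γ / (128 * κ ^ 2)) := by
      field_simp
      norm_num
    rwa [e] at ht

/-- **Bodies with an irreducible group of symmetries** (more generally, the Casimir operator is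
a scalar). -/
theorem cover_scalar {ι : Type*} [Fintype ι] (X : ι → E →L[ℝ] E)
    (hX : ∀ i x y, ⟪X i x, y⟫_ℝ = -⟪x, X i y⟫_ℝ) (q : ℝ) (hq : 0 < q)
    (hcas : ∀ x, -∑ i, X i (X i x) = q • x) (κ : ℝ) (hκ : 0 < κ)
    (hn : ∀ a : ι → ℝ, ∑ i, a i ^ 2 ≤ 1 → ∀ x, ‖∑ i, a i • X i x‖ ≤ κ * ‖x‖)
    (K : Set E) (hd : 2 ≤ Module.finrank ℝ E)
    (hK : Convex ℝ K) (hKc : IsCompact K) (hKi : (interior K).Nonempty)
    (hKs : ∀ x ∈ K, -x ∈ K) (hinv : Inv X K) :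
    ∃ T : Finset E, K ⊆ ⋃ t ∈ T, (fun x => t + x) '' interior K ∧
      (T.card : ℝ) ≤ 1 + 13 * Module.finrank ℝ E * Real.log (4 * Module.finrank ℝ E + 1)
        * 2 ^ Module.finrank ℝ E * Real.exp (-(q / (512 * κ ^ 2))) ∧
      (18 * Module.finrank ℝ E * Real.log (4 * Module.finrank ℝ E + 1)
        * Real.exp (-(q / (512 * κ ^ 2))) ≤ 1 → T.card < 2 ^ Module.finrank ℝ E) := by
  classical
  have h := cover_of_tail K hd hK hKc hKi hKs (q / (32 * κ ^ 2)) ?_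
  · have e : q / (32 * κ ^ 2) / 16 = q / (512 * κ ^ 2) := by
      field_simp
      norm_num
    rwa [e] at h
  · intro y hy
    have hz : ∀ x, ⟪y, x⟫_ℝ = -∑ i, ⟪q⁻¹ • y, X i (X i x)⟫_ℝ := by
      intro x
      rw [← inner_sum, ← inner_neg_right, hcas, real_inner_smul_left, real_inner_smul_right,
        inv_mul_cancel_left₀ hq.ne']
    have hgy := grad_le X hX κ hκ hn K hinv y hy
    have hB : ∀ x ∈ K, ∑ i, ⟪q⁻¹ • y, X i x⟫_ℝ * ⟪y, X i x⟫_ℝ ≤ κ ^ 2 / q := by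
      intro x hx
      have h1 : ∑ i, ⟪q⁻¹ • y, X i x⟫_ℝ * ⟪y, X i x⟫_ℝ = q⁻¹ * ∑ i, ⟪y, X i x⟫_ℝ ^ 2 := by
        rw [Finset.mul_sum]
        refine Finset.sum_congr rfl fun i _ => ?_
        rw [real_inner_smul_left]
        ring
      rw [h1, div_eq_inv_mul]
      exact mul_le_mul_of_nonneg_left (hgy x hx) (by positivity)
    have ht := tail_le X hX K hKc hinv y _ hz (κ ^ 2 / q) (by positivity) hB
    have e : -1 / (32 * (κ ^ 2 / q)) = -(q / (32 * κ ^ 2)) := by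
      field_simp
    rwa [e] at ht

end Pool.Agent.TH591.Lie
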