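import Mathlib
import Pool.Agent.TH591.Lie.Bern2

set_option autoImplicit false

/-!
# The derivative of a polynomial representation of `SO(n)`
-/

namespace Pool.Agent.TH591.Lie

open scoped InnerProductSpace Matrix

variable {n : ℕ}

/-- The matrix of an operator on `ℝ^n`. -/
noncomputable def toMat (L : EuclideanSpace ℝ (Fin n) →L[ℝ] EuclideanSpace ℝ (Fin n)) :
    Matrix (Fin n) (Fin n) ℝ :=
  Matrix.of fun a b => (L (EuclideanSpace.single b 1)) a

theorem toMat_apply (L : EuclideanSpace ℝ (Fin n) →L[ℝ] EuclideanSpace ℝ (Fin n)) (a b : Fin n) :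
    toMat L a b = (L (EuclideanSpace.single b 1)) a := rfl

theorem toMat_mul (L M : EuclideanSpace ℝ (Fin n) →L[ℝ] EuclideanSpace ℝ (Fin n)) :
    toMat (L * M) = toMat L * toMat M := by
  ext a b
  rw [Matrix.mul_apply, toMat_apply, mul_apply_eq_comp]
  have h : M (EuclideanSpace.single b 1) = ∑ c, (M (EuclideanSpace.single b 1)) c
      • (EuclideanSpace.single c (1 : ℝ)) := by
    ext i
    simp [Finset.sum_apply, Pi.single_apply]
  conv_lhs => rw [h]
  rw [map_sum]
  simp only [map_smul, smul_eq_mul, WithLp.ofLp_sum, Finset.sum_apply,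
    WithLp.ofLp_smul, Pi.smul_apply]
  refine Finset.sum_congr rfl fun c _ => ?_
  rw [toMat_apply, toMat_apply]
  ring

theorem toMat_one : toMat (1 : EuclideanSpace ℝ (Fin n) →L[ℝ] EuclideanSpace ℝ (Fin n)) = 1 := by
  ext a b
  rw [toMat_apply, Matrix.one_apply]
  simp

/-- Skew-adjoint operators. -/
def Skew {E : Type*} [NormedAddCommGroup E] [InnerProductSpace ℝ E] (S : E →L[ℝ] E) : Prop :=
  ∀ x y, ⟪S x, y⟫_ℝ = -⟪x, S y⟫_ℝ

theorem Skew.smul {E : Type*} [NormedAddCommGroup E] [InnerProductSpace ℝ E] {S : E →L[ℝ] E}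
    (h : Skew S) (t : ℝ) : Skew (t • S) := by
  intro x y
  simp [h x y, real_inner_smul_left, real_inner_smul_right]

theorem Skew.zero {E : Type*} [NormedAddCommGroup E] [InnerProductSpace ℝ E] :
    Skew (0 : E →L[ℝ] E) := by
  intro x y
  simp

theorem exp_mul_neg {E : Type*} [NormedAddCommGroup E] [InnerProductSpace ℝ E]
    [FiniteDimensional ℝ E] (S : E →L[ℝ] E) :
    NormedSpace.exp S * NormedSpace.exp (-S) = 1 := by
  let _ : NormedAlgebra ℚ (E →L[ℝ] E) := NormedAlgebra.restrictScalars ℚ ℝ (E →L[ℝ] E)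
  rw [← NormedSpace.exp_add_of_commute (Commute.refl S).neg_right, add_neg_cancel,
    NormedSpace.exp_zero]

theorem exp_smul_add {E : Type*} [NormedAddCommGroup E] [InnerProductSpace ℝ E]
    [FiniteDimensional ℝ E] (S : E →L[ℝ] E) (s t : ℝ) :
    NormedSpace.exp ((s + t) • S) = NormedSpace.exp (s • S) * NormedSpace.exp (t • S) := by
  ext x
  exact flow_add S s t x

theorem toMat_exp_orth (T : EuclideanSpace ℝ (Fin n) →L[ℝ] EuclideanSpace ℝ (Fin n))
    (hT : Skew T) : (toMat (NormedSpace.exp T))ᵀ * toMat (NormedSpace.exp T) = 1 := by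
  ext a b
  rw [Matrix.mul_apply]
  have h := flow_inner T hT 1 (EuclideanSpace.single a 1) (EuclideanSpace.single b 1)
  rw [one_smul] at h
  rw [PiLp.inner_apply, PiLp.inner_apply] at h
  simp only [RCLike.inner_apply, conj_trivial] at h
  rw [Matrix.one_apply]
  calc ∑ j, (toMat (NormedSpace.exp T))ᵀ a j * toMat (NormedSpace.exp T) j b
      = ∑ i, (NormedSpace.exp T (EuclideanSpace.single b 1)).ofLp i
        * (NormedSpace.exp T (EuclideanSpace.single a 1)).ofLp i := by
        refine Finset.sum_congr rfl fun j _ => ?_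
        rw [Matrix.transpose_apply, toMat_apply, toMat_apply, mul_comm]
    _ = _ := h
    _ = if a = b then 1 else 0 := by
        simp

theorem toMat_exp_mem (T : EuclideanSpace ℝ (Fin n) →L[ℝ] EuclideanSpace ℝ (Fin n))
    (hT : Skew T) : toMat (NormedSpace.exp T) ∈ Matrix.specialOrthogonalGroup (Fin n) ℝ := by
  rw [Matrix.mem_specialOrthogonalGroup_iff, Matrix.mem_orthogonalGroup_iff']
  refine ⟨toMat_exp_orth T hT, ?_⟩
  have h1 : NormedSpace.exp T
      = NormedSpace.exp ((1 / 2 : ℝ) • T) * NormedSpace.exp ((1 / 2 : ℝ) • T) := by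
    rw [← exp_smul_add]
    norm_num
  have h2 := congrArg Matrix.det (toMat_exp_orth ((1 / 2 : ℝ) • T) (hT.smul _))
  rw [Matrix.det_mul, Matrix.det_transpose, Matrix.det_one] at h2
  rw [h1, toMat_mul, Matrix.det_mul]
  exact h2

/-- The rotation `exp T`. -/
noncomputable def rot (T : EuclideanSpace ℝ (Fin n) →L[ℝ] EuclideanSpace ℝ (Fin n))
    (hT : Skew T) : Matrix.specialOrthogonalGroup (Fin n) ℝ :=
  ⟨toMat (NormedSpace.exp T), toMat_exp_mem T hT⟩

/-- The entries of a matrix, as a vector. -/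
def vec (M : Matrix (Fin n) (Fin n) ℝ) : Fin n × Fin n → ℝ := fun p => M p.1 p.2

/-- The entries of an operator, as a continuous linear map. -/
noncomputable def entL : (EuclideanSpace ℝ (Fin n) →L[ℝ] EuclideanSpace ℝ (Fin n)) →L[ℝ]
    (Fin n × Fin n → ℝ) :=
  LinearMap.toContinuousLinearMap
    { toFun := fun L => vec (toMat L)
      map_add' := fun L M => by
        ext p
        simp [vec, toMat_apply]
      map_smul' := fun c L => by
        ext p
        simp [vec, toMat_apply] }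

theorem entL_apply (L : EuclideanSpace ℝ (Fin n) →L[ℝ] EuclideanSpace ℝ (Fin n)) :
    entL L = vec (toMat L) := rfl

theorem differentiable_eval {σ : Type*} [Fintype σ] (P : MvPolynomial σ ℝ) :
    Differentiable ℝ fun v : σ → ℝ => MvPolynomial.eval v P := by
  induction P using MvPolynomial.induction_on with
  | C a => simp
  | add p q hp hq =>
    simp only [map_add]
    exact hp.fun_add hq
  | mul_X p i hp =>
    simp only [map_mul, MvPolynomial.eval_X]
    exact hp.fun_mul (differentiable_apply i)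

variable {E : Type*} [NormedAddCommGroup E] [InnerProductSpace ℝ E] [FiniteDimensional ℝ E]

/-- The operator `ρ g`. -/
noncomputable def op (ρ : Matrix.specialOrthogonalGroup (Fin n) ℝ →* (E ≃ₗᵢ[ℝ] E))
    (g : Matrix.specialOrthogonalGroup (Fin n) ℝ) : E →L[ℝ] E :=
  ((ρ g).toContinuousLinearEquiv : E →L[ℝ] E)

omit [FiniteDimensional ℝ E] in
theorem op_apply (ρ : Matrix.specialOrthogonalGroup (Fin n) ℝ →* (E ≃ₗᵢ[ℝ] E))
    (g : Matrix.specialOrthogonalGroup (Fin n) ℝ) (x : E) : op ρ g x = ρ g x := rfl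

omit [FiniteDimensional ℝ E] in
theorem op_mul (ρ : Matrix.specialOrthogonalGroup (Fin n) ℝ →* (E ≃ₗᵢ[ℝ] E))
    (g h : Matrix.specialOrthogonalGroup (Fin n) ℝ) : op ρ (g * h) = op ρ g * op ρ h := by
  ext x
  simp [op_apply]

omit [FiniteDimensional ℝ E] in
theorem op_one (ρ : Matrix.specialOrthogonalGroup (Fin n) ℝ →* (E ≃ₗᵢ[ℝ] E)) :
    op ρ 1 = 1 := by
  ext x
  simp [op_apply]

/-- The matrix coefficients of `ρ` are polynomials of degree at most `k` in the entries. -/
def PolyRep (ρ : Matrix.specialOrthogonalGroup (Fin n) ℝ →* (E ≃ₗᵢ[ℝ] E)) (k : ℕ) : Prop :=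
  ∀ x y : E, ∃ P : MvPolynomial (Fin n × Fin n) ℝ, P.totalDegree ≤ k ∧
    ∀ g : Matrix.specialOrthogonalGroup (Fin n) ℝ,
      ⟪y, ρ g x⟫_ℝ = MvPolynomial.eval (fun p => (g : Matrix (Fin n) (Fin n) ℝ) p.1 p.2) P

theorem exists_extension (ρ : Matrix.specialOrthogonalGroup (Fin n) ℝ →* (E ≃ₗᵢ[ℝ] E)) (k : ℕ)
    (h : PolyRep ρ k) : ∃ R : (Fin n × Fin n → ℝ) → (E →L[ℝ] E), Differentiable ℝ R ∧
      ∀ g : Matrix.specialOrthogonalGroup (Fin n) ℝ,
        R (vec (g : Matrix (Fin n) (Fin n) ℝ)) = op ρ g := by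
  classical
  let b := stdOrthonormalBasis ℝ E
  choose P hP1 hP2 using fun i j => h (b j) (b i)
  refine ⟨fun v => ∑ i, ∑ j, MvPolynomial.eval v (P i j)
    • ((innerSL ℝ (b j)).smulRight (b i)), ?_, ?_⟩
  · refine Differentiable.fun_sum fun i _ => Differentiable.fun_sum fun j _ => ?_
    exact (differentiable_eval (P i j)).smul_const _
  · intro g
    have hc : ∀ i j, MvPolynomial.eval (vec (g : Matrix (Fin n) (Fin n) ℝ)) (P i j)
        = ⟪b i, ρ g (b j)⟫_ℝ := fun i j => (hP2 i j g).symm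
    ext x
    simp only [hc, FunLike.coe_sum, Finset.sum_apply, smul_apply,
      ContinuousLinearMap.smulRight_apply, innerSL_apply_apply]
    rw [op_apply]
    conv_rhs => rw [← b.sum_repr' (ρ g x)]
    refine Finset.sum_congr rfl fun i _ => ?_
    simp only [smul_smul]
    rw [← Finset.sum_smul]
    congr 1
    have hx : ρ g x = ∑ j, ⟪b j, x⟫_ℝ • ρ g (b j) := by
      conv_lhs => rw [← b.sum_repr' x]
      simp
    rw [hx, inner_sum]
    refine Finset.sum_congr rfl fun j _ => ?_
    rw [real_inner_smul_right]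
    ring

end Pool.Agent.TH591.Lie
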