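import Mathlib
import Pool.Agent.TH591.Lie.Rep1

set_option autoImplicit false

/-!
# The derivative of a polynomial representation of `SO(n)`, second part
-/

namespace Pool.Agent.TH591.Lie

open scoped InnerProductSpace Matrix

variable {n : ℕ}
variable {E : Type*} [NormedAddCommGroup E] [InnerProductSpace ℝ E] [FiniteDimensional ℝ E]

omit [FiniteDimensional ℝ E] in
theorem exp_zero_smul (S : E →L[ℝ] E) : NormedSpace.exp ((0 : ℝ) • S) = 1 := by
  ext x
  exact flow_zero S x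

theorem exp_zero_smul' (T : EuclideanSpace ℝ (Fin n) →L[ℝ] EuclideanSpace ℝ (Fin n)) :
    NormedSpace.exp ((0 : ℝ) • T) = 1 := exp_zero_smul T

theorem exp_neg_zero_smul (T : EuclideanSpace ℝ (Fin n) →L[ℝ] EuclideanSpace ℝ (Fin n)) :
    NormedSpace.exp ((-0 : ℝ) • T) = 1 := by
  rw [neg_zero]
  exact exp_zero_smul' T

/-- The derivative at the identity. -/
noncomputable def dR (R : (Fin n × Fin n → ℝ) → (E →L[ℝ] E)) :
    (EuclideanSpace ℝ (Fin n) →L[ℝ] EuclideanSpace ℝ (Fin n)) →L[ℝ] (E →L[ℝ] E) :=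
  (fderiv ℝ R (vec 1)).comp entL

theorem hasDerivAt_entL_exp (A T B : EuclideanSpace ℝ (Fin n) →L[ℝ] EuclideanSpace ℝ (Fin n))
    (t : ℝ) : HasDerivAt (fun t : ℝ => entL (A * NormedSpace.exp (t • T) * B))
      (entL (A * (T * NormedSpace.exp (t • T)) * B)) t := by
  have h := ((hasDerivAt_exp_smul_const' (𝕂 := ℝ) T t).const_mul A).mul_const B
  exact entL.hasFDerivAt.comp_hasDerivAt t h

theorem entL_exp (T : EuclideanSpace ℝ (Fin n) →L[ℝ] EuclideanSpace ℝ (Fin n))
    (hT : Skew T) : entL (NormedSpace.exp T)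
      = vec ((rot T hT : Matrix.specialOrthogonalGroup (Fin n) ℝ) : Matrix (Fin n) (Fin n) ℝ) :=
  rfl

theorem exp_neg_smul_hasDerivAt (Y : E →L[ℝ] E) (t : ℝ) :
    HasDerivAt (fun t : ℝ => NormedSpace.exp ((-t) • Y))
      (-(Y * NormedSpace.exp ((-t) • Y))) t := by
  have := (hasDerivAt_exp_smul_const' (𝕂 := ℝ) Y (-t)).scomp t (hasDerivAt_neg t)
  simpa [Function.comp_def] using this

section

variable (ρ : Matrix.specialOrthogonalGroup (Fin n) ℝ →* (E ≃ₗᵢ[ℝ] E))
  (R : (Fin n × Fin n → ℝ) → (E →L[ℝ] E)) (hR : Differentiable ℝ R)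
  (hRρ : ∀ g : Matrix.specialOrthogonalGroup (Fin n) ℝ,
    R (vec (g : Matrix (Fin n) (Fin n) ℝ)) = op ρ g)

include hRρ

omit [FiniteDimensional ℝ E] in
theorem R_exp (T : EuclideanSpace ℝ (Fin n) →L[ℝ] EuclideanSpace ℝ (Fin n)) (hT : Skew T) :
    R (entL (NormedSpace.exp T)) = op ρ (rot T hT) := by
  rw [entL_exp T hT, hRρ]

omit [FiniteDimensional ℝ E] in
theorem R_exp_add (T : EuclideanSpace ℝ (Fin n) →L[ℝ] EuclideanSpace ℝ (Fin n)) (hT : Skew T)
    (s t : ℝ) : R (entL (NormedSpace.exp ((s + t) • T)))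
      = R (entL (NormedSpace.exp (s • T))) * R (entL (NormedSpace.exp (t • T))) := by
  rw [R_exp ρ R hRρ _ (hT.smul _), R_exp ρ R hRρ _ (hT.smul _), R_exp ρ R hRρ _ (hT.smul _),
    ← op_mul]
  congr 1
  apply Subtype.ext
  show toMat _ = toMat _ * toMat _
  rw [← toMat_mul, exp_smul_add]

omit [FiniteDimensional ℝ E] in
theorem R_exp_conj (S T : EuclideanSpace ℝ (Fin n) →L[ℝ] EuclideanSpace ℝ (Fin n))
    (hS : Skew S) (hT : Skew T) (s t : ℝ) :
    R (entL (NormedSpace.exp (s • S) * NormedSpace.exp (t • T) * NormedSpace.exp ((-s) • S)))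
      = R (entL (NormedSpace.exp (s • S))) * R (entL (NormedSpace.exp (t • T)))
        * R (entL (NormedSpace.exp ((-s) • S))) := by
  rw [R_exp ρ R hRρ _ (hS.smul _), R_exp ρ R hRρ _ (hT.smul _), R_exp ρ R hRρ _ (hS.smul _),
    ← op_mul, ← op_mul, ← hRρ]
  congr 1
  rw [entL_apply, toMat_mul, toMat_mul]
  rfl

include hR

theorem hasDerivAt_R_zero (T : EuclideanSpace ℝ (Fin n) →L[ℝ] EuclideanSpace ℝ (Fin n)) :
    HasDerivAt (fun t : ℝ => R (entL (NormedSpace.exp (t • T)))) (dR R T) 0 := by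
  have h1 := hasDerivAt_entL_exp 1 T 1 0
  simp only [one_mul, mul_one] at h1
  have h2 := (hR (entL (NormedSpace.exp ((0 : ℝ) • T)))).hasFDerivAt
  have h3 := h2.comp_hasDerivAt (0 : ℝ) h1
  have e : entL (NormedSpace.exp ((0 : ℝ) • T)) = vec (1 : Matrix (Fin n) (Fin n) ℝ) := by
    rw [exp_zero_smul', entL_apply, toMat_one]
  have e2 : T * NormedSpace.exp ((0 : ℝ) • T) = T := by
    rw [exp_zero_smul', mul_one]
  rw [e, e2] at h3
  exact h3

theorem hasDerivAt_R (T : EuclideanSpace ℝ (Fin n) →L[ℝ] EuclideanSpace ℝ (Fin n)) (hT : Skew T)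
    (t : ℝ) : HasDerivAt (fun t : ℝ => R (entL (NormedSpace.exp (t • T))))
      (R (entL (NormedSpace.exp (t • T))) * dR R T) t := by
  have h0 := hasDerivAt_R_zero ρ R hR hRρ T
  have h1 : HasDerivAt (fun u : ℝ => R (entL (NormedSpace.exp ((u - t) • T)))) (dR R T) t := by
    have h2 : HasDerivAt (fun t : ℝ => R (entL (NormedSpace.exp (t • T)))) (dR R T) (t - t) := by
      rw [sub_self]; exact h0
    exact h2.comp_sub_const t t
  have h3 := h1.const_mul (R (entL (NormedSpace.exp (t • T))))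
  refine h3.congr_of_eventuallyEq (Filter.Eventually.of_forall fun u => ?_)
  simp only
  rw [← R_exp_add ρ R hRρ T hT]
  congr 4
  ring

/-- `ρ (exp T) = exp (dρ T)`. -/
theorem R_exp_eq (T : EuclideanSpace ℝ (Fin n) →L[ℝ] EuclideanSpace ℝ (Fin n)) (hT : Skew T)
    (t : ℝ) : R (entL (NormedSpace.exp (t • T))) = NormedSpace.exp (t • dR R T) := by
  have hd : ∀ s : ℝ, HasDerivAt (fun t : ℝ => R (entL (NormedSpace.exp (t • T)))
      * NormedSpace.exp ((-t) • dR R T)) 0 s := by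
    intro s
    have h := (hasDerivAt_R ρ R hR hRρ T hT s).mul (exp_neg_smul_hasDerivAt (dR R T) s)
    convert! h using 1
    rw [mul_neg, ← mul_assoc, add_neg_cancel]
  have hc := is_const_of_deriv_eq_zero (fun s => (hd s).differentiableAt) (fun s => (hd s).deriv)
    t 0
  simp only [exp_zero_smul'] at hc
  rw [neg_zero, exp_zero_smul, mul_one] at hc
  have e : R (entL (1 : EuclideanSpace ℝ (Fin n) →L[ℝ] EuclideanSpace ℝ (Fin n))) = 1 := by
    have h1 := hRρ 1
    rw [op_one] at h1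
    rw [entL_apply, toMat_one]
    exact h1
  rw [e] at hc
  have h2 : NormedSpace.exp ((-t) • dR R T) * NormedSpace.exp (t • dR R T) = 1 := by
    rw [← exp_smul_add, neg_add_cancel, exp_zero_smul]
  calc R (entL (NormedSpace.exp (t • T)))
      = R (entL (NormedSpace.exp (t • T))) * (NormedSpace.exp ((-t) • dR R T)
        * NormedSpace.exp (t • dR R T)) := by rw [h2, mul_one]
    _ = NormedSpace.exp (t • dR R T) := by rw [← mul_assoc, hc, one_mul]

theorem op_rot (T : EuclideanSpace ℝ (Fin n) →L[ℝ] EuclideanSpace ℝ (Fin n)) (hT : Skew T) :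
    op ρ (rot T hT) = NormedSpace.exp (dR R T) := by
  have h := R_exp_eq ρ R hR hRρ T hT 1
  rw [one_smul, one_smul, R_exp ρ R hRρ T hT] at h
  exact h

theorem dR_skew (T : EuclideanSpace ℝ (Fin n) →L[ℝ] EuclideanSpace ℝ (Fin n)) (hT : Skew T) :
    Skew (dR R T) := by
  intro x y
  have h0 := hasDerivAt_R_zero ρ R hR hRρ T
  have hx := h0.clm_apply (hasDerivAt_const (0 : ℝ) x)
  have hy := h0.clm_apply (hasDerivAt_const (0 : ℝ) y)
  have h := hx.inner ℝ hy
  have hconst : (fun t : ℝ => ⟪R (entL (NormedSpace.exp (t • T))) x,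
      R (entL (NormedSpace.exp (t • T))) y⟫_ℝ) = fun _ => ⟪x, y⟫_ℝ := by
    ext t
    rw [R_exp ρ R hRρ _ (hT.smul t), op_apply, op_apply, LinearIsometryEquiv.inner_map_map]
  rw [hconst] at h
  have h2 := h.unique (hasDerivAt_const (0 : ℝ) ⟪x, y⟫_ℝ)
  have e : R (entL (1 : EuclideanSpace ℝ (Fin n) →L[ℝ] EuclideanSpace ℝ (Fin n))) = 1 := by
    have h1 := hRρ 1
    rw [op_one] at h1
    rw [entL_apply, toMat_one]
    exact h1
  simp only [exp_zero_smul', e, map_zero, add_zero, one_apply_eq_self] at h2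
  linarith

theorem dR_conj (S T : EuclideanSpace ℝ (Fin n) →L[ℝ] EuclideanSpace ℝ (Fin n))
    (hS : Skew S) (hT : Skew T) (s : ℝ) :
    R (entL (NormedSpace.exp (s • S))) * dR R T * R (entL (NormedSpace.exp ((-s) • S)))
      = dR R (NormedSpace.exp (s • S) * T * NormedSpace.exp ((-s) • S)) := by
  have h1 := ((hasDerivAt_R_zero ρ R hR hRρ T).const_mul
    (R (entL (NormedSpace.exp (s • S))))).mul_const (R (entL (NormedSpace.exp ((-s) • S))))
  have h2 := hasDerivAt_entL_exp (NormedSpace.exp (s • S)) T (NormedSpace.exp ((-s) • S)) 0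
  have h3 := (hR (entL (NormedSpace.exp (s • S) * NormedSpace.exp ((0 : ℝ) • T)
    * NormedSpace.exp ((-s) • S)))).hasFDerivAt.comp_hasDerivAt (0 : ℝ) h2
  have e : entL (NormedSpace.exp (s • S) * NormedSpace.exp ((0 : ℝ) • T)
    * NormedSpace.exp ((-s) • S)) = vec (1 : Matrix (Fin n) (Fin n) ℝ) := by
    rw [exp_zero_smul', mul_one, ← exp_smul_add, add_neg_cancel, exp_zero_smul', entL_apply,
      toMat_one]
  rw [e] at h3
  have e2 : NormedSpace.exp (s • S) * (T * NormedSpace.exp ((0 : ℝ) • T))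
      * NormedSpace.exp ((-s) • S) = NormedSpace.exp (s • S) * T
      * NormedSpace.exp ((-s) • S) := by
    rw [exp_zero_smul', mul_one]
  rw [e2] at h3
  refine HasDerivAt.unique ?_ h3
  refine h1.congr_of_eventuallyEq (Filter.Eventually.of_forall fun t => ?_)
  exact R_exp_conj ρ R hRρ S T hS hT s t

/-- `dρ` is a homomorphism of Lie algebras. -/
theorem dR_bracket (S T : EuclideanSpace ℝ (Fin n) →L[ℝ] EuclideanSpace ℝ (Fin n))
    (hS : Skew S) (hT : Skew T) :
    dR R S * dR R T - dR R T * dR R S = dR R (S * T - T * S) := by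
  have e : R (entL (1 : EuclideanSpace ℝ (Fin n) →L[ℝ] EuclideanSpace ℝ (Fin n))) = 1 := by
    have h1 := hRρ 1
    rw [op_one] at h1
    rw [entL_apply, toMat_one]
    exact h1
  have h0 := hasDerivAt_R_zero ρ R hR hRρ S
  have h0' : HasDerivAt (fun s : ℝ => R (entL (NormedSpace.exp ((-s) • S)))) (-(dR R S)) 0 := by
    have h1 : HasDerivAt (fun t : ℝ => R (entL (NormedSpace.exp (t • S)))) (dR R S) (-0) := by
      rw [neg_zero]; exact h0
    have := h1.scomp (0 : ℝ) (hasDerivAt_neg (0 : ℝ))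
    simpa [Function.comp_def] using this
  have h1 := (h0.mul_const (dR R T)).mul h0'
  have h2 : HasDerivAt (fun s : ℝ => NormedSpace.exp (s • S) * T * NormedSpace.exp ((-s) • S))
      (S * T - T * S) 0 := by
    have h3 := ((hasDerivAt_exp_smul_const' (𝕂 := ℝ) S (0 : ℝ)).mul_const T).mul
      (exp_neg_smul_hasDerivAt S 0)
    simp only [neg_zero, exp_zero_smul', mul_one, one_mul] at h3
    have e3 : S * T - T * S = S * T + T * -S := by
      ext v : 1
      show S (T v) - T (S v) = S (T v) + T (-(S v))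
      rw [map_neg, sub_eq_add_neg]
    rw [e3]
    exact h3
  have h4 := (dR R).hasFDerivAt.comp_hasDerivAt (0 : ℝ) h2
  have h5 := HasDerivAt.unique h1 (h4.congr_of_eventuallyEq
    (Filter.Eventually.of_forall fun s => dR_conj ρ R hR hRρ S T hS hT s))
  simp only [neg_zero, exp_zero_smul', e, mul_one, one_mul, mul_neg] at h5
  rw [sub_eq_add_neg]
  exact h5

end

end Pool.Agent.TH591.Lie
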