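import Mathlib
import Pool.Agent.TH591.Lie.Rep2

set_option autoImplicit false

/-!
# The frequencies of a polynomial representation of degree `k`
-/

namespace Pool.Agent.TH591.Lie

open scoped InnerProductSpace Matrix

section expansion

variable {E : Type*} [NormedAddCommGroup E] [InnerProductSpace ℝ E] [FiniteDimensional ℝ E]

/-- Eigenbasis of `-S^2`. -/
theorem exists_eigenbasis (S : E →L[ℝ] E) (hS : Skew S) :
    ∃ e : OrthonormalBasis (Fin (Module.finrank ℝ E)) ℝ E,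
      (∀ j, S (S (e j)) = -(‖S (e j)‖ ^ 2) • e j) ∧
      ∀ (t : ℝ) j, NormedSpace.exp (t • S) (e j)
        = Real.cos (t * ‖S (e j)‖) • e j + (Real.sin (t * ‖S (e j)‖) / ‖S (e j)‖) • S (e j) := by
  classical
  let T : E →ₗ[ℝ] E := -((S : E →ₗ[ℝ] E) ∘ₗ (S : E →ₗ[ℝ] E))
  have hTa : ∀ z, T z = -(S (S z)) := fun z => rfl
  have hT : T.IsSymmetric := by
    intro a b
    rw [hTa, hTa, inner_neg_left, inner_neg_right, hS, hS, neg_neg]
  let e := hT.eigenvectorBasis rfl
  let μ := hT.eigenvalues rfl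
  have hTe : ∀ j, T (e j) = μ j • e j := fun j => hT.apply_eigenvectorBasis rfl j
  have hμ : ∀ j, μ j = ‖S (e j)‖ ^ 2 := by
    intro j
    have h1 : ⟪e j, T (e j)⟫_ℝ = μ j := by
      rw [hTe, inner_smul_right, real_inner_self_eq_norm_sq, e.norm_eq_one]
      ring
    rw [← h1, hTa, inner_neg_right, ← hS, real_inner_self_eq_norm_sq]
  have hlS : ∀ j, S (S (e j)) = -(‖S (e j)‖ ^ 2) • e j := by
    intro j
    have h1 := hTe j
    rw [hTa, hμ] at h1
    rw [neg_smul, ← h1, neg_neg]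
  refine ⟨e, hlS, fun t j => ?_⟩
  exact flow_plane S (e j) ‖S (e j)‖ (hlS j) (fun h0 => by simpa using h0) t

theorem coeff_expansion (S : E →L[ℝ] E) (hS : Skew S) (θ : ℝ) (hn : ∀ x, ‖S x‖ ≤ θ * ‖x‖)
    (x y : E) : ∃ α β l : Fin (Module.finrank ℝ E) → ℝ, (∀ j, |l j| ≤ θ) ∧
      ∀ t : ℝ, ⟪y, NormedSpace.exp (t • S) x⟫_ℝ
        = ∑ j, (α j * Real.cos (t * l j) + β j * Real.sin (t * l j)) := by
  obtain ⟨e, he1, he2⟩ := exists_eigenbasis S hS
  refine ⟨fun j => ⟪e j, x⟫_ℝ * ⟪y, e j⟫_ℝ, fun j => ⟪e j, x⟫_ℝ * ⟪y, S (e j)⟫_ℝ / ‖S (e j)‖,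
    fun j => ‖S (e j)‖, ?_, ?_⟩
  · intro j
    rw [abs_of_nonneg (norm_nonneg _)]
    have := hn (e j)
    rwa [e.norm_eq_one, mul_one] at this
  · intro t
    conv_lhs => rw [← e.sum_repr' x]
    rw [map_sum, inner_sum]
    refine Finset.sum_congr rfl fun j _ => ?_
    rw [map_smul, inner_smul_right, he2, inner_add_right, inner_smul_right, inner_smul_right]
    ring

/-- The operator norm of a skew-adjoint operator is at most `κ` if all the frequencies are. -/
theorem norm_le_of_eigen (S : E →L[ℝ] E) (hS : Skew S) (κ : ℝ) (hκ : 0 ≤ κ)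
    (h : ∀ e : E, ‖e‖ = 1 → S (S e) = -(‖S e‖ ^ 2) • e → ‖S e‖ ≤ κ) (x : E) :
    ‖S x‖ ≤ κ * ‖x‖ := by
  obtain ⟨e, he1, he2⟩ := exists_eigenbasis S hS
  have h1 : ‖S x‖ ^ 2 = ∑ j, ‖S (e j)‖ ^ 2 * ⟪e j, x⟫_ℝ ^ 2 := by
    rw [← real_inner_self_eq_norm_sq, hS]
    have h2 : S (S x) = ∑ j, (⟪e j, x⟫_ℝ * (-(‖S (e j)‖ ^ 2))) • e j := by
      conv_lhs => rw [← e.sum_repr' x]
      rw [map_sum, map_sum]
      refine Finset.sum_congr rfl fun j _ => ?_
      rw [map_smul, map_smul, he1, smul_smul]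
    rw [h2, inner_sum, ← Finset.sum_neg_distrib]
    refine Finset.sum_congr rfl fun j _ => ?_
    rw [inner_smul_right, real_inner_comm]
    ring
  have h3 : ‖x‖ ^ 2 = ∑ j, ⟪e j, x⟫_ℝ ^ 2 := by
    have := e.sum_sq_norm_inner_right x
    rw [← this]
    refine Finset.sum_congr rfl fun j _ => ?_
    rw [Real.norm_eq_abs, sq_abs]
  have h4 : ‖S x‖ ^ 2 ≤ (κ * ‖x‖) ^ 2 := by
    rw [h1, mul_pow, h3, Finset.mul_sum]
    refine Finset.sum_le_sum fun j _ => ?_
    have h5 := h (e j) (e.norm_eq_one j) (he1 j)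
    gcongr
  exact (sq_le_sq₀ (norm_nonneg _) (by positivity)).mp h4

end expansion

/-- A complex trigonometric sum. -/
noncomputable def tri {J : Type*} [Fintype J] (α β l : J → ℝ) (z : ℂ) : ℂ :=
  ∑ j, ((α j : ℂ) * Complex.cos (z * l j) + (β j : ℂ) * Complex.sin (z * l j))

theorem tri_differentiable {J : Type*} [Fintype J] (α β l : J → ℝ) :
    Differentiable ℂ (tri α β l) := by
  unfold tri
  refine Differentiable.fun_sum fun j _ => ?_
  fun_prop

theorem tri_ofReal {J : Type*} [Fintype J] (α β l : J → ℝ) (t : ℝ) :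
    tri α β l t = ((∑ j, (α j * Real.cos (t * l j) + β j * Real.sin (t * l j)) : ℝ) : ℂ) := by
  unfold tri
  push_cast
  rfl

theorem cosh_le (x : ℝ) : Real.cosh x ≤ Real.exp |x| := by
  rw [Real.cosh_eq]
  have h1 := Real.exp_le_exp.mpr (le_abs_self x)
  have h2 := Real.exp_le_exp.mpr (neg_le_abs x)
  linarith

theorem sinh_le (x : ℝ) : |Real.sinh x| ≤ Real.exp |x| := by
  rw [Real.sinh_eq, abs_le]
  have h1 := Real.exp_le_exp.mpr (le_abs_self x)
  have h2 := Real.exp_le_exp.mpr (neg_le_abs x)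
  have h3 := Real.exp_pos x
  have h4 := Real.exp_pos (-x)
  constructor <;> linarith

theorem tri_bound {J : Type*} [Fintype J] (α β l : J → ℝ) (θ : ℝ) (hl : ∀ j, |l j| ≤ θ) (s : ℝ)
    (hs : 0 ≤ s) : ‖tri α β l (s * Complex.I)‖ ≤ (∑ j, (|α j| + |β j|)) * Real.exp (θ * s) := by
  unfold tri
  rw [Finset.sum_mul]
  refine (norm_sum_le _ _).trans (Finset.sum_le_sum fun j _ => ?_)
  have e : (s : ℂ) * Complex.I * (l j : ℂ) = ((s * l j : ℝ) : ℂ) * Complex.I := by
    push_cast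
    ring
  have hexp : Real.exp |s * l j| ≤ Real.exp (θ * s) := by
    apply Real.exp_le_exp.mpr
    rw [abs_mul, abs_of_nonneg hs, mul_comm θ s]
    exact mul_le_mul_of_nonneg_left (hl j) hs
  rw [e, Complex.cos_mul_I, Complex.sin_mul_I, ← Complex.ofReal_cosh, ← Complex.ofReal_sinh]
  refine (norm_add_le _ _).trans ?_
  rw [norm_mul, norm_mul, norm_mul, Complex.norm_I, mul_one, Complex.norm_real, Complex.norm_real,
    Complex.norm_real, Complex.norm_real, Real.norm_eq_abs, Real.norm_eq_abs, Real.norm_eq_abs,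
    Real.norm_eq_abs, add_mul]
  refine add_le_add (mul_le_mul_of_nonneg_left ?_ (abs_nonneg _))
    (mul_le_mul_of_nonneg_left ?_ (abs_nonneg _))
  · rw [abs_of_pos (Real.cosh_pos _)]
    exact (cosh_le _).trans hexp
  · exact (sinh_le _).trans hexp

/-- If a polynomial of degree at most `k` in trigonometric sums with frequencies in `[-θ, θ]` is
`cos (ω t)`, then `ω ≤ k θ`. -/
theorem freq_le {σ J : Type*} [Fintype σ] [Fintype J] (P : MvPolynomial σ ℝ) (k : ℕ)
    (hP : P.totalDegree ≤ k) (α β l : σ → J → ℝ) (θ : ℝ) (hθ : 0 ≤ θ) (hl : ∀ p j, |l p j| ≤ θ)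
    (ω : ℝ)
    (h : ∀ t : ℝ, Real.cos (t * ω) = MvPolynomial.eval (fun p =>
      ∑ j, (α p j * Real.cos (t * l p j) + β p j * Real.sin (t * l p j))) P) : ω ≤ k * θ := by
  classical
  let Φ : ℂ → ℂ := fun z => ∑ d ∈ P.support, ((P.coeff d : ℝ) : ℂ)
    * ∏ p, tri (α p) (β p) (l p) z ^ d p
  have hΦd : Differentiable ℂ Φ := by
    refine Differentiable.fun_sum fun d _ => (Differentiable.const_mul ?_ _)
    refine Differentiable.fun_finsetProd fun p _ => ?_
    exact (tri_differentiable _ _ _).pow _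
  have hreal : ∀ t : ℝ, Φ t = Complex.cos (t * ω) := by
    intro t
    have h1 := congrArg (fun x : ℝ => (x : ℂ)) (h t)
    simp only [Complex.ofReal_cos, Complex.ofReal_mul] at h1
    rw [h1, MvPolynomial.eval_eq']
    simp only [Φ, tri_ofReal]
    push_cast
    rfl
  have hcd : Differentiable ℂ fun z : ℂ => Complex.cos (z * ω) := by fun_prop
  have heq : Φ = fun z : ℂ => Complex.cos (z * ω) := by
    refine AnalyticOnNhd.eq_of_frequently_eq (𝕜 := ℂ) (z₀ := 0) ?_ ?_ ?_
    · exact fun z _ => hΦd.analyticAt z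
    · exact fun z _ => hcd.analyticAt z
    · have ht : Filter.Tendsto (fun m : ℕ => (((1 / ((m : ℝ) + 1) : ℝ)) : ℂ)) Filter.atTop
          (nhdsWithin 0 {0}ᶜ) := by
        rw [tendsto_nhdsWithin_iff]
        refine ⟨?_, Filter.Eventually.of_forall fun m => ?_⟩
        · have := tendsto_one_div_add_atTop_nhds_zero_nat (𝕜 := ℝ)
          have h2 := (Complex.continuous_ofReal.tendsto 0).comp this
          simpa only [Function.comp_def, Complex.ofReal_zero] using h2
        · have : (1 / ((m : ℝ) + 1) : ℝ) ≠ 0 := by positivity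
          rw [Set.mem_compl_iff, Set.mem_singleton_iff]
          exact Complex.ofReal_ne_zero.mpr this
      refine ht.frequently (Filter.Frequently.of_forall fun m => ?_)
      exact hreal _
  -- constants
  let C : ℝ := 1 + ∑ p, ∑ j, (|α p j| + |β p j|)
  have hC1 : 1 ≤ C := by
    have : 0 ≤ ∑ p, ∑ j, (|α p j| + |β p j|) := by positivity
    simp only [C]; linarith
  have hCp : ∀ p, ∑ j, (|α p j| + |β p j|) ≤ C := by
    intro p
    have := Finset.single_le_sum (f := fun p => ∑ j, (|α p j| + |β p j|))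
      (fun p _ => by positivity) (Finset.mem_univ p)
    simp only [C]; linarith
  let D : ℝ := ∑ d ∈ P.support, |P.coeff d|
  have hbound : ∀ s : ℝ, 0 ≤ s → ‖Φ (s * Complex.I)‖ ≤ D * (C * Real.exp (θ * s)) ^ k := by
    intro s hs
    have hb1 : 1 ≤ C * Real.exp (θ * s) := by
      have : 1 ≤ Real.exp (θ * s) := Real.one_le_exp (by positivity)
      nlinarith
    simp only [Φ, D]
    rw [Finset.sum_mul]
    refine (norm_sum_le _ _).trans (Finset.sum_le_sum fun d hd => ?_)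
    rw [norm_mul, Complex.norm_real, Real.norm_eq_abs, norm_prod]
    refine mul_le_mul_of_nonneg_left ?_ (abs_nonneg _)
    calc ∏ p, ‖tri (α p) (β p) (l p) (s * Complex.I) ^ d p‖
        ≤ ∏ p, (C * Real.exp (θ * s)) ^ d p := by
          refine Finset.prod_le_prod (fun p _ => norm_nonneg _) fun p _ => ?_
          rw [norm_pow]
          refine pow_le_pow_left₀ (norm_nonneg _) ?_ _
          exact (tri_bound _ _ _ θ (hl p) s hs).trans
            (mul_le_mul_of_nonneg_right (hCp p) (Real.exp_pos _).le)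
      _ = (C * Real.exp (θ * s)) ^ (∑ p, d p) := by rw [Finset.prod_pow_eq_pow_sum]
      _ ≤ (C * Real.exp (θ * s)) ^ k := by
          refine pow_le_pow_right₀ hb1 ?_
          have h1 := MvPolynomial.le_totalDegree hd
          rw [Finsupp.sum_fintype _ _ (fun _ => rfl)] at h1
          exact h1.trans hP
  have hgrow : ∀ s : ℝ, 0 ≤ s → Real.exp ((ω - k * θ) * s) ≤ 2 * (D * C ^ k) := by
    intro s hs
    have h1 := hbound s hs
    rw [heq] at h1
    simp only at h1
    have e : (s : ℂ) * Complex.I * (ω : ℂ) = ((s * ω : ℝ) : ℂ) * Complex.I := by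
      push_cast
      ring
    rw [e, Complex.cos_mul_I, ← Complex.ofReal_cosh, Complex.norm_real, Real.norm_eq_abs,
      abs_of_pos (Real.cosh_pos _), Real.cosh_eq, mul_pow, ← Real.exp_nat_mul] at h1
    have h2 := Real.exp_pos (-(s * ω))
    have h3 : Real.exp ((ω - k * θ) * s) = Real.exp (s * ω) * Real.exp (-(k * (θ * s))) := by
      rw [← Real.exp_add]
      congr 1
      ring
    have h4 : Real.exp (k * (θ * s)) * Real.exp (-(k * (θ * s))) = 1 := by
      rw [← Real.exp_add, add_neg_cancel, Real.exp_zero]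
    rw [h3]
    calc Real.exp (s * ω) * Real.exp (-(k * (θ * s)))
        ≤ (2 * (D * (C ^ k * Real.exp (k * (θ * s))))) * Real.exp (-(k * (θ * s))) := by
          refine mul_le_mul_of_nonneg_right ?_ (Real.exp_pos _).le
          linarith
      _ = 2 * (D * C ^ k) * (Real.exp (k * (θ * s)) * Real.exp (-(k * (θ * s)))) := by ring
      _ = 2 * (D * C ^ k) := by rw [h4, mul_one]
  by_contra hcon
  push Not at hcon
  have hδ : 0 < ω - k * θ := by linarith
  have hM : 0 ≤ 2 * (D * C ^ k) := (Real.exp_pos _).le.trans (hgrow 0 le_rfl)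
  have h1 := hgrow (2 * (D * C ^ k) / (ω - k * θ)) (by positivity)
  have h2 := Real.add_one_le_exp ((ω - k * θ) * (2 * (D * C ^ k) / (ω - k * θ)))
  have h3 : (ω - k * θ) * (2 * (D * C ^ k) / (ω - k * θ)) = 2 * (D * C ^ k) := by
    field_simp
  linarith

variable {n : ℕ}
variable {E : Type*} [NormedAddCommGroup E] [InnerProductSpace ℝ E] [FiniteDimensional ℝ E]

/-- The norm of `dρ T`. -/
theorem dR_norm_le (ρ : Matrix.specialOrthogonalGroup (Fin n) ℝ →* (E ≃ₗᵢ[ℝ] E))
    (R : (Fin n × Fin n → ℝ) → (E →L[ℝ] E)) (hR : Differentiable ℝ R)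
    (hRρ : ∀ g : Matrix.specialOrthogonalGroup (Fin n) ℝ,
      R (vec (g : Matrix (Fin n) (Fin n) ℝ)) = op ρ g) (k : ℕ) (hρ : PolyRep ρ k)
    (T : EuclideanSpace ℝ (Fin n) →L[ℝ] EuclideanSpace ℝ (Fin n)) (hT : Skew T)
    (θ : ℝ) (hθ : 0 ≤ θ) (hn : ∀ x, ‖T x‖ ≤ θ * ‖x‖) (x : E) :
    ‖dR R T x‖ ≤ k * θ * ‖x‖ := by
  have hsk := dR_skew ρ R hR hRρ T hT
  refine norm_le_of_eigen (dR R T) hsk (k * θ) (by positivity) ?_ x
  intro e he1 he2
  obtain ⟨P, hP1, hP2⟩ := hρ e e
  choose α β l hl hexp using fun p : Fin n × Fin n =>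
    coeff_expansion T hT θ hn (EuclideanSpace.single p.2 1) (EuclideanSpace.single p.1 1)
  refine freq_le P k hP1 α β l θ hθ hl _ fun t => ?_
  have h1 : ⟪e, NormedSpace.exp (t • dR R T) e⟫_ℝ = Real.cos (t * ‖dR R T e‖) := by
    rw [flow_plane (dR R T) e ‖dR R T e‖ he2 (fun h0 => by simpa using h0) t, inner_add_right,
      inner_smul_right, inner_smul_right, real_inner_self_eq_norm_sq, he1]
    have h2 : ⟪e, dR R T e⟫_ℝ = 0 := by
      have := hsk e e
      rw [real_inner_comm] at this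
      linarith
    rw [h2]
    ring
  rw [← h1, ← R_exp_eq ρ R hR hRρ T hT t, R_exp ρ R hRρ _ (hT.smul t), op_apply, hP2]
  congr 1
  congr 1
  ext p
  rw [← hexp p t]
  show toMat (NormedSpace.exp (t • T)) p.1 p.2 = _
  rw [toMat_apply]
  rw [PiLp.inner_apply]
  simp

end Pool.Agent.TH591.Lie
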