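import Mathlib
import Pool.Agent.TH591.Lie.Rep3

set_option autoImplicit false

/-!
# The standard frame of `so(n)`
-/

namespace Pool.Agent.TH591.Lie

open scoped InnerProductSpace Matrix

variable {n : ℕ}

/-- The standard basis vector. -/
noncomputable def bv (a : Fin n) : EuclideanSpace ℝ (Fin n) := EuclideanSpace.single a 1

theorem inner_bv (a : Fin n) (v : EuclideanSpace ℝ (Fin n)) : ⟪bv a, v⟫_ℝ = v a := by
  rw [bv, EuclideanSpace.inner_single_left]
  simp

theorem inner_bv' (a : Fin n) (v : EuclideanSpace ℝ (Fin n)) : ⟪v, bv a⟫_ℝ = v a := by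
  rw [real_inner_comm, inner_bv]

theorem bv_apply (a b : Fin n) : (bv a : EuclideanSpace ℝ (Fin n)) b = if a = b then 1 else 0 := by
  simp [bv, eq_comm]

/-- The infinitesimal rotation of the coordinate plane `a, b`. -/
noncomputable def xi (a b : Fin n) : EuclideanSpace ℝ (Fin n) →L[ℝ] EuclideanSpace ℝ (Fin n) :=
  (innerSL ℝ (bv b)).smulRight (bv a) - (innerSL ℝ (bv a)).smulRight (bv b)

theorem xi_apply (a b : Fin n) (v : EuclideanSpace ℝ (Fin n)) :
    xi a b v = v b • bv a - v a • bv b := by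
  simp only [xi, sub_apply, ContinuousLinearMap.smulRight_apply, innerSL_apply_apply, inner_bv]

theorem xi_skew (a b : Fin n) : Skew (xi a b) := by
  intro v w
  rw [xi_apply, xi_apply, inner_sub_left, inner_sub_right, real_inner_smul_left,
    real_inner_smul_left, real_inner_smul_right, real_inner_smul_right, inner_bv, inner_bv,
    inner_bv', inner_bv']
  ring

theorem xi_neg (a b : Fin n) : xi b a = -xi a b := by
  unfold xi
  rw [neg_sub]

theorem xi_bracket (a b c d : Fin n) :
    xi a b * xi c d - xi c d * xi a b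
      = (if b = c then xi a d else 0) - (if b = d then xi a c else 0)
        - (if a = c then xi b d else 0) + (if a = d then xi b c else 0) := by
  have key : ∀ v : EuclideanSpace ℝ (Fin n), xi a b (xi c d v) - xi c d (xi a b v)
      = (if b = c then (1 : ℝ) else 0) • xi a d v - (if b = d then (1 : ℝ) else 0) • xi a c v
        - (if a = c then (1 : ℝ) else 0) • xi b d v + (if a = d then (1 : ℝ) else 0) • xi b c v := by
    intro v
    simp only [xi_apply, PiLp.sub_apply, PiLp.smul_apply, bv_apply, smul_eq_mul]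
    have h1 : (if c = b then (1 : ℝ) else 0) = if b = c then 1 else 0 := by simp only [eq_comm]
    have h2 : (if d = b then (1 : ℝ) else 0) = if b = d then 1 else 0 := by simp only [eq_comm]
    have h3 : (if c = a then (1 : ℝ) else 0) = if a = c then 1 else 0 := by simp only [eq_comm]
    have h4 : (if d = a then (1 : ℝ) else 0) = if a = d then 1 else 0 := by simp only [eq_comm]
    rw [h1, h2, h3, h4]
    module
  ext v : 1
  have h := key v
  show xi a b (xi c d v) - xi c d (xi a b v) = _
  rw [h]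
  split_ifs <;> simp

/-- The sum of the squares of the commutators in `so(n)`. -/
theorem sum_comm_sq (v : Fin n → Fin n → ℝ) (hv : ∀ a b, v b a = -v a b) :
    ∑ a, ∑ b, ∑ c, ∑ d, ((if b = c then v a d else 0) - (if b = d then v a c else 0)
        - (if a = c then v b d else 0) + (if a = d then v b c else 0)) ^ 2
      = (4 * n - 8) * ∑ a, ∑ b, v a b ^ 2 := by
  have h0 : ∀ a, v a a = 0 := by
    intro a
    have := hv a a
    linarith
  have hexp : ∀ a b c d, ((if b = c then v a d else 0) - (if b = d then v a c else 0)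
        - (if a = c then v b d else 0) + (if a = d then v b c else 0)) ^ 2
      = (if b = c then v a d ^ 2 else 0) + (if b = d then v a c ^ 2 else 0)
        + (if a = c then v b d ^ 2 else 0) + (if a = d then v b c ^ 2 else 0)
        - 2 * (if b = c then (if b = d then v a d * v a c else 0) else 0)
        - 2 * (if b = c then (if a = c then v a d * v b d else 0) else 0)
        + 2 * (if b = c then (if a = d then v a d * v b c else 0) else 0)
        + 2 * (if b = d then (if a = c then v a c * v b d else 0) else 0)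
        - 2 * (if b = d then (if a = d then v a c * v b c else 0) else 0)
        - 2 * (if a = c then (if a = d then v b d * v b c else 0) else 0) := by
    intro a b c d
    split_ifs <;> ring
  simp only [hexp, Finset.sum_add_distrib, Finset.sum_sub_distrib, ← Finset.mul_sum]
  have e1 : ∑ a : Fin n, ∑ b : Fin n, ∑ c : Fin n, ∑ d : Fin n, (if b = c then v a d ^ 2 else 0)
      = n * ∑ a, ∑ b, v a b ^ 2 := by
    have : ∀ a b : Fin n, ∑ c, ∑ d, (if b = c then v a d ^ 2 else 0) = ∑ d, v a d ^ 2 := by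
      intro a b
      rw [Finset.sum_comm]
      simp
    simp only [this, Finset.sum_const, Finset.card_univ, Fintype.card_fin, nsmul_eq_mul,
      ← Finset.mul_sum]
  have e2 : ∑ a : Fin n, ∑ b : Fin n, ∑ c : Fin n, ∑ d : Fin n, (if b = d then v a c ^ 2 else 0)
      = n * ∑ a, ∑ b, v a b ^ 2 := by
    simp [← Finset.mul_sum]
  have e3 : ∑ a : Fin n, ∑ b : Fin n, ∑ c : Fin n, ∑ d : Fin n, (if a = c then v b d ^ 2 else 0)
      = n * ∑ a, ∑ b, v a b ^ 2 := by
    have : ∀ a b : Fin n, ∑ c, ∑ d, (if a = c then v b d ^ 2 else 0) = ∑ d, v b d ^ 2 := by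
      intro a b
      rw [Finset.sum_comm]
      simp
    simp only [this, Finset.sum_const, Finset.card_univ, Fintype.card_fin, nsmul_eq_mul]
  have e4 : ∑ a : Fin n, ∑ b : Fin n, ∑ c : Fin n, ∑ d : Fin n, (if a = d then v b c ^ 2 else 0)
      = n * ∑ a, ∑ b, v a b ^ 2 := by
    simp
  have e5 : ∑ a : Fin n, ∑ b : Fin n, ∑ c : Fin n, ∑ d : Fin n, (if b = c then (if b = d then v a d * v a c else 0) else 0)
      = ∑ a, ∑ b, v a b ^ 2 := by
    refine Finset.sum_congr rfl fun a _ => Finset.sum_congr rfl fun b _ => ?_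
    rw [Finset.sum_comm]
    simp [pow_two]
  have e6 : ∑ a : Fin n, ∑ b : Fin n, ∑ c : Fin n, ∑ d : Fin n, (if b = c then (if a = c then v a d * v b d else 0) else 0)
      = ∑ a, ∑ b, v a b ^ 2 := by
    refine Finset.sum_congr rfl fun a _ => ?_
    have : ∀ b : Fin n, ∑ c, ∑ d, (if b = c then (if a = c then v a d * v b d else 0) else 0)
        = if a = b then ∑ d, v a d * v b d else 0 := by
      intro b
      rw [Finset.sum_comm]
      simp only [Finset.sum_ite_eq, Finset.mem_univ, if_true]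
      split_ifs <;> simp
    simp only [this, Finset.sum_ite_eq, Finset.mem_univ, if_true, pow_two]
  have e7 : ∑ a : Fin n, ∑ b : Fin n, ∑ c : Fin n, ∑ d : Fin n, (if b = c then (if a = d then v a d * v b c else 0) else 0)
      = 0 := by
    refine Finset.sum_eq_zero fun a _ => Finset.sum_eq_zero fun b _ => Finset.sum_eq_zero
      fun c _ => Finset.sum_eq_zero fun d _ => ?_
    split_ifs with h1 h2
    · subst h1 h2
      rw [h0]
      ring
    · rfl
    · rfl
  have e8 : ∑ a : Fin n, ∑ b : Fin n, ∑ c : Fin n, ∑ d : Fin n, (if b = d then (if a = c then v a c * v b d else 0) else 0)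
      = 0 := by
    refine Finset.sum_eq_zero fun a _ => Finset.sum_eq_zero fun b _ => Finset.sum_eq_zero
      fun c _ => Finset.sum_eq_zero fun d _ => ?_
    split_ifs with h1 h2
    · subst h1 h2
      rw [h0]
      ring
    · rfl
    · rfl
  have e9 : ∑ a : Fin n, ∑ b : Fin n, ∑ c : Fin n, ∑ d : Fin n, (if b = d then (if a = d then v a c * v b c else 0) else 0)
      = ∑ a, ∑ b, v a b ^ 2 := by
    refine Finset.sum_congr rfl fun a _ => ?_
    have : ∀ b : Fin n, ∑ c, ∑ d, (if b = d then (if a = d then v a c * v b c else 0) else 0)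
        = if a = b then ∑ d, v a d * v b d else 0 := by
      intro b
      simp only [Finset.sum_ite_eq, Finset.mem_univ, if_true]
      split_ifs <;> simp
    rw [Finset.sum_congr rfl fun b _ => this b]
    simp only [Finset.sum_ite_eq, Finset.mem_univ, if_true, pow_two]
  have e10 : ∑ a : Fin n, ∑ b : Fin n, ∑ c : Fin n, ∑ d : Fin n, (if a = c then (if a = d then v b d * v b c else 0) else 0)
      = ∑ a, ∑ b, v a b ^ 2 := by
    rw [Finset.sum_comm]
    refine Finset.sum_congr rfl fun b _ => Finset.sum_congr rfl fun a _ => ?_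
    rw [Finset.sum_comm]
    simp [pow_two]
  rw [e1, e2, e3, e4, e5, e6, e7, e8, e9, e10]
  ring

/-- The norm of a combination of the infinitesimal rotations. -/
theorem xi_norm (a : Fin n × Fin n → ℝ) (ha : ∑ p, a p ^ 2 ≤ 1) (v : EuclideanSpace ℝ (Fin n)) :
    ‖(∑ p, a p • xi p.1 p.2) v‖ ≤ √2 * ‖v‖ := by
  set u := (∑ p, a p • xi p.1 p.2) v with hu
  have h1 : ‖u‖ ^ 2 = ∑ p : Fin n × Fin n, a p * (u p.1 * v p.2 - u p.2 * v p.1) := by
    have h0 : ‖u‖ ^ 2 = ⟪(∑ p, a p • xi p.1 p.2) v, u⟫_ℝ := by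
      rw [← hu, real_inner_self_eq_norm_sq]
    rw [h0, FunLike.coe_sum, Finset.sum_apply, sum_inner]
    refine Finset.sum_congr rfl fun p _ => ?_
    rw [smul_apply, real_inner_smul_left, xi_apply, inner_sub_left,
      real_inner_smul_left, real_inner_smul_left, inner_bv, inner_bv]
    ring
  have h2 : ∑ p : Fin n × Fin n, (u p.1 * v p.2 - u p.2 * v p.1) ^ 2 ≤ 2 * ‖u‖ ^ 2 * ‖v‖ ^ 2 := by
    have e : ∑ p : Fin n × Fin n, (u p.1 * v p.2 - u p.2 * v p.1) ^ 2
        = 2 * ‖u‖ ^ 2 * ‖v‖ ^ 2 - 2 * (∑ i, u i * v i) ^ 2 := by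
      rw [EuclideanSpace.real_norm_sq_eq, EuclideanSpace.real_norm_sq_eq, Fintype.sum_prod_type]
      have e1 : ∀ i j : Fin n, (u i * v j - u j * v i) ^ 2
          = u i ^ 2 * v j ^ 2 + v i ^ 2 * u j ^ 2 - 2 * ((u i * v i) * (u j * v j)) := by
        intro i j
        ring
      simp only [e1, Finset.sum_sub_distrib, Finset.sum_add_distrib, ← Finset.mul_sum,
        ← Finset.sum_mul]
      ring
    rw [e]
    nlinarith [sq_nonneg (∑ i, u i * v i)]
  have h3 : ‖u‖ ^ 2 ≤ √2 * ‖u‖ * ‖v‖ := by
    rw [h1]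
    refine (Real.sum_mul_le_sqrt_mul_sqrt _ _ _).trans ?_
    have h4 : √(∑ p, a p ^ 2) ≤ 1 := by
      rw [Real.sqrt_le_left one_pos.le]
      simpa using ha
    have h5 : √(∑ p : Fin n × Fin n, (u p.1 * v p.2 - u p.2 * v p.1) ^ 2) ≤ √2 * ‖u‖ * ‖v‖ := by
      rw [Real.sqrt_le_left (by positivity), mul_pow, mul_pow, Real.sq_sqrt (by norm_num)]
      exact h2
    calc √(∑ p, a p ^ 2) * √(∑ p : Fin n × Fin n, (u p.1 * v p.2 - u p.2 * v p.1) ^ 2)
        ≤ 1 * (√2 * ‖u‖ * ‖v‖) := mul_le_mul h4 h5 (Real.sqrt_nonneg _) one_pos.le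
      _ = √2 * ‖u‖ * ‖v‖ := one_mul _
  rcases eq_or_lt_of_le (norm_nonneg u) with h | h
  · rw [← h]; positivity
  · have : ‖u‖ * ‖u‖ ≤ ‖u‖ * (√2 * ‖v‖) := by nlinarith
    exact le_of_mul_le_mul_left this h

theorem comb_skew' {E : Type*} [NormedAddCommGroup E] [InnerProductSpace ℝ E] {ι : Type*}
    (s : Finset ι) (X : ι → E →L[ℝ] E) (hX : ∀ i, Skew (X i)) (a : ι → ℝ) :
    Skew (∑ i ∈ s, a i • X i) := by
  intro x y
  simp only [FunLike.coe_sum, Finset.sum_apply, smul_apply, sum_inner, inner_sum,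
    real_inner_smul_left, real_inner_smul_right]
  rw [← Finset.sum_neg_distrib]
  refine Finset.sum_congr rfl fun i _ => ?_
  rw [hX i x y]
  ring

/-- A skew-adjoint operator is a combination of the infinitesimal rotations. -/
theorem skew_eq_sum (T : EuclideanSpace ℝ (Fin n) →L[ℝ] EuclideanSpace ℝ (Fin n)) (hT : Skew T) :
    T = ∑ p : Fin n × Fin n, ((1 / 2 : ℝ) * (T (bv p.2)) p.1) • xi p.1 p.2 := by
  ext v i
  have h1 : ∀ a b, (T (bv b)) a = -(T (bv a)) b := by
    intro a b
    have := hT (bv a) (bv b)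
    rw [inner_bv, real_inner_comm, inner_bv] at this
    linarith
  have hv : v = ∑ c, v c • bv c := by
    ext j
    simp [bv_apply]
  have h2 : (T v) i = ∑ c, v c * (T (bv c)) i := by
    conv_lhs => rw [hv]
    rw [map_sum]
    simp
  rw [h2]
  simp only [FunLike.coe_sum, Finset.sum_apply, smul_apply, xi_apply, WithLp.ofLp_sum,
    WithLp.ofLp_smul, Pi.smul_apply, WithLp.ofLp_sub, Pi.sub_apply, smul_eq_mul, bv_apply]
  rw [Fintype.sum_prod_type]
  simp only [mul_sub, mul_ite, mul_one, mul_zero, Finset.sum_sub_distrib]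
  rw [Finset.sum_comm]
  simp only [Finset.sum_ite_eq', Finset.mem_univ, if_true]
  have h3 : ∑ x, 1 / 2 * (T (bv i)) x * v x = -∑ x, 1 / 2 * (T (bv x)) i * v x := by
    rw [← Finset.sum_neg_distrib]
    refine Finset.sum_congr rfl fun x _ => ?_
    rw [h1 x i]
    ring
  rw [h3, sub_neg_eq_add, ← Finset.sum_add_distrib]
  refine Finset.sum_congr rfl fun x _ => ?_
  ring

end Pool.Agent.TH591.Lie
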