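import Mathlib
import Pool.Agent.TH591.Lie.Rep4

set_option autoImplicit false

/-!
# `SO(n)` is generated by the exponentials of skew-symmetric matrices
-/

namespace Pool.Agent.TH591.Lie

open scoped InnerProductSpace Matrix

section plane

variable {F : Type*} [NormedAddCommGroup F] [InnerProductSpace ℝ F] [FiniteDimensional ℝ F]

omit [FiniteDimensional ℝ F] in
theorem reflection_perp_apply (u x : F) :
    (ℝ ∙ u)ᗮ.reflection x = x - (2 * (⟪u, x⟫_ℝ / ‖u‖ ^ 2)) • u := by
  rw [Submodule.reflection_orthogonal_apply, Submodule.reflection_singleton_apply]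
  simp only [RCLike.ofReal_real_eq_id, id_eq]
  module

/-- The infinitesimal rotation of the plane spanned by the orthonormal vectors `v, w`. -/
noncomputable def planeJ (v w : F) : F →L[ℝ] F :=
  (innerSL ℝ v).smulRight w - (innerSL ℝ w).smulRight v

omit [FiniteDimensional ℝ F] in
theorem planeJ_apply (v w x : F) : planeJ v w x = ⟪v, x⟫_ℝ • w - ⟪w, x⟫_ℝ • v := by
  simp only [planeJ, sub_apply, ContinuousLinearMap.smulRight_apply, innerSL_apply_apply]

omit [FiniteDimensional ℝ F] in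
theorem planeJ_skew (v w : F) : Skew (planeJ v w) := by
  intro x y
  rw [planeJ_apply, planeJ_apply, inner_sub_left, inner_sub_right, real_inner_smul_left,
    real_inner_smul_left, real_inner_smul_right, real_inner_smul_right, real_inner_comm w x,
    real_inner_comm v x]
  ring

theorem exp_planeJ (v w : F) (hv : ‖v‖ = 1) (hw : ‖w‖ = 1) (hvw : ⟪v, w⟫_ℝ = 0) (t : ℝ) (x : F) :
    NormedSpace.exp (t • planeJ v w) x = x
      + ((Real.cos t - 1) * ⟪v, x⟫_ℝ - Real.sin t * ⟪w, x⟫_ℝ) • v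
      + ((Real.cos t - 1) * ⟪w, x⟫_ℝ + Real.sin t * ⟪v, x⟫_ℝ) • w := by
  have hvv : ⟪v, v⟫_ℝ = 1 := by rw [real_inner_self_eq_norm_sq, hv]; norm_num
  have hww : ⟪w, w⟫_ℝ = 1 := by rw [real_inner_self_eq_norm_sq, hw]; norm_num
  have hwv : ⟪w, v⟫_ℝ = 0 := by rw [real_inner_comm]; exact hvw
  have hJv : planeJ v w v = w := by rw [planeJ_apply, hvv, hwv]; simp
  have hJw : planeJ v w w = -v := by rw [planeJ_apply, hvw, hww]; simp
  set x' : F := x - ⟪v, x⟫_ℝ • v - ⟪w, x⟫_ℝ • w with hx'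
  have hJx : planeJ v w x' = 0 := by
    rw [planeJ_apply, hx']
    simp only [inner_sub_right, real_inner_smul_right, hvv, hww, hvw, hwv]
    module
  have hx : x = x' + ⟪v, x⟫_ℝ • v + ⟪w, x⟫_ℝ • w := by rw [hx']; module
  have e1 : NormedSpace.exp (t • planeJ v w) v = Real.cos t • v + Real.sin t • w := by
    have := flow_plane (planeJ v w) v 1 (by rw [hJv, hJw]; simp) (by norm_num) t
    rw [this, hJv]
    simp
  have e2 : NormedSpace.exp (t • planeJ v w) w = Real.cos t • w - Real.sin t • v := by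
    have := flow_plane (planeJ v w) w 1 (by rw [hJw, map_neg, hJv]; simp) (by norm_num) t
    rw [this, hJw]
    simp [sub_eq_add_neg]
  have e3 : NormedSpace.exp (t • planeJ v w) x' = x' := by
    have := flow_plane (planeJ v w) x' 0 (by rw [hJx]; simp) (fun _ => hJx) t
    rw [this, hJx]
    simp
  have h : NormedSpace.exp (t • planeJ v w) x = NormedSpace.exp (t • planeJ v w) x'
      + ⟪v, x⟫_ℝ • NormedSpace.exp (t • planeJ v w) v
      + ⟪w, x⟫_ℝ • NormedSpace.exp (t • planeJ v w) w := by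
    conv_lhs => rw [hx]
    rw [map_add, map_add, map_smul, map_smul]
  rw [h, e1, e2, e3, hx']
  module

/-- A product of two reflections is the exponential of a skew-adjoint operator. -/
theorem reflection_mul_reflection (u v : F) (hu : u ≠ 0) (hv : v ≠ 0) :
    ∃ T : F →L[ℝ] F, Skew T ∧ ∀ x, (ℝ ∙ u)ᗮ.reflection ((ℝ ∙ v)ᗮ.reflection x)
      = NormedSpace.exp T x := by
  have hun : 0 < ‖u‖ := norm_pos_iff.mpr hu
  have hvn : 0 < ‖v‖ := norm_pos_iff.mpr hv
  set p : F := ‖u‖⁻¹ • u with hp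
  set q : F := ‖v‖⁻¹ • v with hq
  have hpn : ‖p‖ = 1 := by
    rw [hp, norm_smul, norm_inv, norm_norm, inv_mul_cancel₀ hun.ne']
  have hqn : ‖q‖ = 1 := by
    rw [hq, norm_smul, norm_inv, norm_norm, inv_mul_cancel₀ hvn.ne']
  have hRu : ∀ x, (ℝ ∙ u)ᗮ.reflection x = x - (2 * ⟪p, x⟫_ℝ) • p := by
    intro x
    rw [reflection_perp_apply, hp, real_inner_smul_left, smul_smul]
    congr 2
    field_simp
  have hRv : ∀ x, (ℝ ∙ v)ᗮ.reflection x = x - (2 * ⟪q, x⟫_ℝ) • q := by
    intro x
    rw [reflection_perp_apply, hq, real_inner_smul_left, smul_smul]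
    congr 2
    field_simp
  clear_value p q
  have hpp : ⟪p, p⟫_ℝ = 1 := by rw [real_inner_self_eq_norm_sq, hpn]; norm_num
  have hqq : ⟪q, q⟫_ℝ = 1 := by rw [real_inner_self_eq_norm_sq, hqn]; norm_num
  set c : ℝ := ⟪q, p⟫_ℝ with hc
  set w₀ : F := p - c • q with hw₀
  have hw₀n : ‖w₀‖ ^ 2 = 1 - c ^ 2 := by
    rw [← real_inner_self_eq_norm_sq, hw₀]
    simp only [inner_sub_left, inner_sub_right, real_inner_smul_left, real_inner_smul_right, hpp,
      hqq]
    rw [real_inner_comm q p, ← hc]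
    ring
  rcases eq_or_ne w₀ 0 with h0 | h0
  · refine ⟨0, Skew.zero, fun x => ?_⟩
    rw [NormedSpace.exp_zero, one_apply_eq_self]
    have hpc : p = c • q := by
      rw [← sub_eq_zero]; exact h0
    have hc2 : c ^ 2 = 1 := by
      rw [h0, norm_zero] at hw₀n
      linarith
    rw [hRu, hRv, hpc]
    simp only [real_inner_smul_left, inner_sub_right, real_inner_smul_right, hqq, smul_smul]
    have : 2 * (c * ⟪q, x⟫_ℝ - 2 * ⟪q, x⟫_ℝ * (c * 1)) * c = -(2 * ⟪q, x⟫_ℝ) * c ^ 2 := by ring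
    rw [this, hc2]
    module
  · have hs : 0 < ‖w₀‖ := norm_pos_iff.mpr h0
    set s : ℝ := ‖w₀‖ with hsdef
    set w : F := s⁻¹ • w₀ with hw
    have hwn : ‖w‖ = 1 := by
      rw [hw, norm_smul, norm_inv, Real.norm_eq_abs, abs_of_pos hs, ← hsdef,
        inv_mul_cancel₀ hs.ne']
    clear_value w
    have hpw : p = c • q + s • w := by
      rw [hw, smul_inv_smul₀ hs.ne', hw₀]
      module
    have hqw : ⟪q, w⟫_ℝ = 0 := by
      rw [hw, real_inner_smul_right, hw₀, inner_sub_right, real_inner_smul_right q q c, hqq, ← hc]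
      ring
    have hc1 : c ≤ 1 := by nlinarith
    have hc1' : -1 ≤ c := by nlinarith
    set α : ℝ := Real.arccos c with hα
    have hcos : Real.cos α = c := Real.cos_arccos hc1' hc1
    have hsin : Real.sin α = s := by
      rw [hα, Real.sin_arccos, ← hw₀n, Real.sqrt_sq hs.le]
    refine ⟨(2 * α) • planeJ q w, (planeJ_skew q w).smul _, fun x => ?_⟩
    rw [exp_planeJ q w hqn hwn hqw, hRu, hRv, Real.cos_two_mul, Real.sin_two_mul, hcos, hsin]
    have h1 : ⟪p, x - (2 * ⟪q, x⟫_ℝ) • q⟫_ℝ = -c * ⟪q, x⟫_ℝ + s * ⟪w, x⟫_ℝ := by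
      rw [hpw]
      simp only [inner_sub_right, inner_add_left, real_inner_smul_left, real_inner_smul_right, hqq]
      rw [real_inner_comm q w, hqw]
      ring
    rw [h1]
    have hs2 : s * s = 1 - c ^ 2 := by rw [← pow_two]; exact hw₀n
    conv_lhs => rw [hpw]
    have e : x - (2 * ⟪q, x⟫_ℝ) • q - (2 * (-c * ⟪q, x⟫_ℝ + s * ⟪w, x⟫_ℝ)) • (c • q + s • w)
        = x + ((2 * c ^ 2 - 1 - 1) * ⟪q, x⟫_ℝ - 2 * s * c * ⟪w, x⟫_ℝ) • q
          + ((-(2 * (s * s))) * ⟪w, x⟫_ℝ + 2 * s * c * ⟪q, x⟫_ℝ) • w := by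
      module
    rw [e, hs2]
    module

end plane

variable {n : ℕ}

theorem det_toMat (L : EuclideanSpace ℝ (Fin n) →L[ℝ] EuclideanSpace ℝ (Fin n)) :
    (toMat L).det = LinearMap.det (L : EuclideanSpace ℝ (Fin n) →ₗ[ℝ] EuclideanSpace ℝ (Fin n)) := by
  rw [← LinearMap.det_toMatrix (EuclideanSpace.basisFun (Fin n) ℝ).toBasis]
  rfl

/-- The isometry as an operator. -/
noncomputable def isoOp (φ : EuclideanSpace ℝ (Fin n) ≃ₗᵢ[ℝ] EuclideanSpace ℝ (Fin n)) :
    EuclideanSpace ℝ (Fin n) →L[ℝ] EuclideanSpace ℝ (Fin n) :=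
  (φ.toContinuousLinearEquiv : EuclideanSpace ℝ (Fin n) →L[ℝ] EuclideanSpace ℝ (Fin n))

theorem isoOp_apply (φ : EuclideanSpace ℝ (Fin n) ≃ₗᵢ[ℝ] EuclideanSpace ℝ (Fin n))
    (x : EuclideanSpace ℝ (Fin n)) : isoOp φ x = φ x := rfl

theorem isoOp_mul (φ ψ : EuclideanSpace ℝ (Fin n) ≃ₗᵢ[ℝ] EuclideanSpace ℝ (Fin n)) :
    isoOp (φ * ψ) = isoOp φ * isoOp ψ := by
  ext x : 1
  rfl

theorem det_list (l : List (EuclideanSpace ℝ (Fin n))) (hl : ∀ v ∈ l, v ≠ 0) :
    (toMat (isoOp (l.map fun v => (ℝ ∙ v)ᗮ.reflection).prod)).det = (-1) ^ l.length := by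
  induction l with
  | nil =>
    have : isoOp (1 : EuclideanSpace ℝ (Fin n) ≃ₗᵢ[ℝ] EuclideanSpace ℝ (Fin n)) = 1 := by
      ext x : 1
      rfl
    simp only [List.map_nil, List.prod_nil, List.length_nil, pow_zero]
    rw [this, toMat_one, Matrix.det_one]
  | cons v l ih =>
    have hv : v ≠ 0 := hl v (by simp)
    have ih' := ih fun w hw => hl w (by simp [hw])
    rw [List.map_cons, List.prod_cons, isoOp_mul, toMat_mul, Matrix.det_mul, ih',
      List.length_cons, pow_succ, mul_comm]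
    congr 1
    rw [det_toMat]
    have h1 := (ℝ ∙ v)ᗮ.det_reflection (𝕜 := ℝ)
    rw [Submodule.orthogonal_orthogonal, finrank_span_singleton hv, pow_one] at h1
    exact h1

theorem even_list {P : Matrix.specialOrthogonalGroup (Fin n) ℝ → Prop} (h1 : P 1)
    (hmul : ∀ (T : EuclideanSpace ℝ (Fin n) →L[ℝ] EuclideanSpace ℝ (Fin n)) (hT : Skew T) g,
      P g → P (rot T hT * g)) (m : ℕ) :
    ∀ l : List (EuclideanSpace ℝ (Fin n)), (∀ v ∈ l, v ≠ 0) → l.length = 2 * m →
      ∃ g : Matrix.specialOrthogonalGroup (Fin n) ℝ, P g ∧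
        (g : Matrix (Fin n) (Fin n) ℝ)
          = toMat (isoOp (l.map fun v => (ℝ ∙ v)ᗮ.reflection).prod) := by
  induction m with
  | zero =>
    intro l hl hlen
    have : l = [] := by simpa using hlen
    subst this
    refine ⟨1, h1, ?_⟩
    have : isoOp (1 : EuclideanSpace ℝ (Fin n) ≃ₗᵢ[ℝ] EuclideanSpace ℝ (Fin n)) = 1 := by
      ext x : 1
      rfl
    simp only [List.map_nil, List.prod_nil]
    rw [this, toMat_one]
    rfl
  | succ m ih =>
    intro l hl hlen
    match l, hl, hlen with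
    | [], _, hlen => simp at hlen
    | [_], _, hlen => simp at hlen; omega
    | u :: v :: l, hl, hlen =>
      obtain ⟨g, hg, hge⟩ := ih l (fun w hw => hl w (by simp [hw])) (by
        simp only [List.length_cons] at hlen
        omega)
      obtain ⟨T, hT, hTe⟩ := reflection_mul_reflection u v (hl u (by simp)) (hl v (by simp))
      refine ⟨rot T hT * g, hmul T hT g hg, ?_⟩
      simp only [List.map_cons, List.prod_cons]
      rw [← mul_assoc, isoOp_mul, toMat_mul, ← hge]
      have e : isoOp ((ℝ ∙ u)ᗮ.reflection * (ℝ ∙ v)ᗮ.reflection) = NormedSpace.exp T := by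
        ext x : 1
        exact hTe x
      rw [e]
      rfl

/-- `SO(n)` is generated by the exponentials of skew-symmetric matrices. -/
theorem so_induction {P : Matrix.specialOrthogonalGroup (Fin n) ℝ → Prop} (h1 : P 1)
    (hmul : ∀ (T : EuclideanSpace ℝ (Fin n) →L[ℝ] EuclideanSpace ℝ (Fin n)) (hT : Skew T) g,
      P g → P (rot T hT * g)) (g : Matrix.specialOrthogonalGroup (Fin n) ℝ) : P g := by
  classical
  -- the isometry of `g`
  let A : EuclideanSpace ℝ (Fin n) →ₗ[ℝ] EuclideanSpace ℝ (Fin n) :=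
    Matrix.toEuclideanLin (g : Matrix (Fin n) (Fin n) ℝ)
  have hA : ∀ x i, (A x) i = ∑ j, (g : Matrix (Fin n) (Fin n) ℝ) i j * x j := by
    intro x i
    rfl
  have hgm := (Matrix.mem_specialOrthogonalGroup_iff.mp g.2)
  have horth := (Matrix.mem_orthogonalGroup_iff' _ _).mp hgm.1
  have hnorm : ∀ x, ‖A x‖ = ‖x‖ := by
    intro x
    have h2 : ‖A x‖ ^ 2 = ‖x‖ ^ 2 := by
      rw [EuclideanSpace.real_norm_sq_eq, EuclideanSpace.real_norm_sq_eq]
      have h3 : ∀ j k, ∑ i, (g : Matrix (Fin n) (Fin n) ℝ) i j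
          * (g : Matrix (Fin n) (Fin n) ℝ) i k = if j = k then 1 else 0 := by
        intro j k
        have := congrFun (congrFun horth j) k
        rw [Matrix.mul_apply, Matrix.one_apply] at this
        exact this
      calc ∑ i, (A x) i ^ 2
          = ∑ i, ∑ j, ∑ k, x j * x k * ((g : Matrix (Fin n) (Fin n) ℝ) i j
              * (g : Matrix (Fin n) (Fin n) ℝ) i k) := by
            refine Finset.sum_congr rfl fun i _ => ?_
            rw [hA, pow_two, Finset.sum_mul_sum]
            refine Finset.sum_congr rfl fun j _ => Finset.sum_congr rfl fun k _ => ?_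
            ring
        _ = ∑ j, ∑ k, x j * x k * ∑ i, ((g : Matrix (Fin n) (Fin n) ℝ) i j
              * (g : Matrix (Fin n) (Fin n) ℝ) i k) := by
            rw [Finset.sum_comm]
            refine Finset.sum_congr rfl fun j _ => ?_
            rw [Finset.sum_comm]
            refine Finset.sum_congr rfl fun k _ => ?_
            rw [Finset.mul_sum]
        _ = ∑ j, x j ^ 2 := by
            refine Finset.sum_congr rfl fun j _ => ?_
            simp only [h3, mul_ite, mul_one, mul_zero, Finset.sum_ite_eq, Finset.mem_univ, if_true]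
            ring
    exact (sq_eq_sq₀ (norm_nonneg _) (norm_nonneg _)).mp h2
  let Ai : EuclideanSpace ℝ (Fin n) →ₗᵢ[ℝ] EuclideanSpace ℝ (Fin n) := ⟨A, hnorm⟩
  let φ : EuclideanSpace ℝ (Fin n) ≃ₗᵢ[ℝ] EuclideanSpace ℝ (Fin n) :=
    Ai.toLinearIsometryEquiv rfl
  have hφ : toMat (isoOp φ) = (g : Matrix (Fin n) (Fin n) ℝ) := by
    ext a b
    rw [toMat_apply]
    show (A (EuclideanSpace.single b 1)) a = _
    rw [hA]
    simp
  obtain ⟨l, -, hl⟩ := φ.reflections_generate_dim
  -- remove the zero vectors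
  set l' := l.filter (fun v => v ≠ 0) with hl'
  have hprod : (l.map fun v => (ℝ ∙ v)ᗮ.reflection).prod
      = (l'.map fun v => (ℝ ∙ v)ᗮ.reflection).prod := by
    rw [hl']
    clear hl hl'
    clear l'
    induction l with
    | nil => rfl
    | cons v l ih =>
      by_cases hv : v = 0
      · subst hv
        have : (ℝ ∙ (0 : EuclideanSpace ℝ (Fin n)))ᗮ.reflection = 1 := by
          ext x : 1
          rw [reflection_perp_apply]
          simp
        rw [List.map_cons, List.prod_cons, this, one_mul, ih]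
        simp
      · rw [List.map_cons, List.prod_cons, ih, List.filter_cons_of_pos (by simpa using hv),
          List.map_cons, List.prod_cons]
  have hne : ∀ v ∈ l', v ≠ 0 := by
    intro v hv
    rw [hl', List.mem_filter] at hv
    simpa using hv.2
  have hdet := det_list l' hne
  rw [← hprod, ← hl, hφ, hgm.2] at hdet
  have heven : Even l'.length := by
    by_contra hodd
    rw [Nat.not_even_iff_odd] at hodd
    rw [hodd.neg_one_pow] at hdet
    norm_num at hdet
  obtain ⟨m, hm⟩ := heven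
  obtain ⟨g', hg', hge⟩ := even_list h1 hmul m l' hne (by omega)
  rw [← hprod, ← hl, hφ] at hge
  have : g' = g := Subtype.ext hge
  rw [← this]
  exact hg'

end Pool.Agent.TH591.Lie
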