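import Mathlib
import Pool.Agent.TH591.Lie.Rep5
import Pool.Agent.TH591.Lie.Main

set_option autoImplicit false

/-!
# Covering convex bodies invariant under a representation of `SO(n)`
-/

namespace Pool.Agent.TH591.Lie

open scoped InnerProductSpace Matrix

variable {n : ℕ}
variable {E : Type*} [NormedAddCommGroup E] [InnerProductSpace ℝ E] [FiniteDimensional ℝ E]

section

variable (ρ : Matrix.specialOrthogonalGroup (Fin n) ℝ →* (E ≃ₗᵢ[ℝ] E))
  (R : (Fin n × Fin n → ℝ) → (E →L[ℝ] E)) (hR : Differentiable ℝ R)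
  (hRρ : ∀ g : Matrix.specialOrthogonalGroup (Fin n) ℝ,
    R (vec (g : Matrix (Fin n) (Fin n) ℝ)) = op ρ g)

include hR hRρ

theorem X_bracket (a b c d : Fin n) :
    dR R (xi a b) * dR R (xi c d) - dR R (xi c d) * dR R (xi a b)
      = (if b = c then dR R (xi a d) else 0) - (if b = d then dR R (xi a c) else 0)
        - (if a = c then dR R (xi b d) else 0) + (if a = d then dR R (xi b c) else 0) := by
  rw [dR_bracket ρ R hR hRρ _ _ (xi_skew a b) (xi_skew c d), xi_bracket, map_add, map_sub, map_sub]
  simp only [apply_ite (dR R), map_zero]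

theorem X_casimir (j : Fin n × Fin n) (x : E) :
    ∑ i : Fin n × Fin n, dR R (xi j.1 j.2) (dR R (xi i.1 i.2) (dR R (xi i.1 i.2) x))
      = ∑ i : Fin n × Fin n, dR R (xi i.1 i.2) (dR R (xi i.1 i.2) (dR R (xi j.1 j.2) x)) := by
  obtain ⟨c, d⟩ := j
  set X : Fin n → Fin n → (E →L[ℝ] E) := fun a b => dR R (xi a b) with hX
  have hneg : ∀ a b, X b a = -X a b := by
    intro a b
    simp only [hX]
    rw [xi_neg, map_neg]
  have h1 : ∀ a b, X a b * X a b * X c d - X c d * (X a b * X a b)
      = X a b * (X a b * X c d - X c d * X a b) + (X a b * X c d - X c d * X a b) * X a b := by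
    intro a b
    noncomm_ring
  have hbr : ∀ a b, X a b * X c d - X c d * X a b
      = (if b = c then X a d else 0) - (if b = d then X a c else 0)
        - (if a = c then X b d else 0) + (if a = d then X b c else 0) :=
    fun a b => X_bracket ρ R hR hRρ a b c d
  have h2 : ∑ a, ∑ b, (X a b * X a b * X c d - X c d * (X a b * X a b)) = 0 := by
    simp only [h1, hbr, mul_add, mul_sub, add_mul, sub_mul, mul_ite, ite_mul, mul_zero, zero_mul,
      Finset.sum_add_distrib, Finset.sum_sub_distrib]
    rw [Finset.sum_comm (f := fun a b => if a = c then X a b * X b d else 0),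
      Finset.sum_comm (f := fun a b => if a = d then X a b * X b c else 0),
      Finset.sum_comm (f := fun a b => if a = c then X b d * X a b else 0),
      Finset.sum_comm (f := fun a b => if a = d then X b c * X a b else 0)]
    simp only [Finset.sum_ite_eq', Finset.mem_univ, if_true]
    simp only [← Finset.sum_add_distrib, ← Finset.sum_sub_distrib]
    refine Finset.sum_eq_zero fun a _ => ?_
    rw [hneg a c, hneg a d]
    noncomm_ring
  have h3 : ∑ i : Fin n × Fin n, (X i.1 i.2 (X i.1 i.2 (X c d x)) - X c d (X i.1 i.2 (X i.1 i.2 x)))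
      = 0 := by
    have h4 := congrArg (fun L : E →L[ℝ] E => L x) h2
    simp only [FunLike.coe_sum, Finset.sum_apply, sub_apply, mul_apply_eq_comp,
      zero_apply] at h4
    rw [Fintype.sum_prod_type]
    exact h4
  rw [Finset.sum_sub_distrib, sub_eq_zero] at h3
  exact h3.symm

theorem X_kill (z x : E) :
    (4 * n - 8 : ℝ) * ∑ p : Fin n × Fin n, ⟪z, dR R (xi p.1 p.2) x⟫_ℝ ^ 2
      ≤ ∑ p : Fin n × Fin n, ∑ q : Fin n × Fin n,
        ⟪z, dR R (xi p.1 p.2) (dR R (xi q.1 q.2) x)
          - dR R (xi q.1 q.2) (dR R (xi p.1 p.2) x)⟫_ℝ ^ 2 := by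
  have h := sum_comm_sq (fun a b => ⟪z, dR R (xi a b) x⟫_ℝ) (fun a b => by
    rw [xi_neg, map_neg, neg_apply, inner_neg_right])
  rw [Fintype.sum_prod_type, ← h]
  simp only [Fintype.sum_prod_type]
  refine le_of_eq ?_
  refine Finset.sum_congr rfl fun a _ => Finset.sum_congr rfl fun b _ =>
    Finset.sum_congr rfl fun c _ => Finset.sum_congr rfl fun d _ => ?_
  have h1 := congrArg (fun L : E →L[ℝ] E => ⟪z, L x⟫_ℝ) (X_bracket ρ R hR hRρ a b c d)
  simp only [sub_apply, add_apply, mul_apply_eq_comp] at h1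
  rw [h1]
  simp only [inner_add_right, inner_sub_right]
  congr 1
  split_ifs <;> simp

theorem X_fix (hfix : ∀ x, (∀ g, ρ g x = x) → x = 0) (x : E)
    (hx : ∀ p : Fin n × Fin n, dR R (xi p.1 p.2) x = 0) : x = 0 := by
  apply hfix
  intro g
  refine so_induction (P := fun g => ρ g x = x) ?_ ?_ g
  · simp
  · intro T hT g hg
    have h1 : dR R T x = 0 := by
      rw [skew_eq_sum T hT, map_sum]
      simp only [map_smul, FunLike.coe_sum, Finset.sum_apply, smul_apply, hx, smul_zero,
        Finset.sum_const_zero]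
    have h2 : op ρ (rot T hT) x = x := by
      rw [op_rot ρ R hR hRρ T hT]
      have := flow_plane (dR R T) x 0 (by rw [h1]; simp) (fun _ => h1) 1
      rw [one_smul] at this
      rw [this, h1]
      simp
    rw [map_mul]
    show ρ (rot T hT) (ρ g x) = x
    rw [hg]
    exact h2

end
end Pool.Agent.TH591.Lie
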