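import Mathlib
import Pool.Agent.TH591.Lie.Rep6
import Pool.Agent.TH591.Lie.Main

set_option autoImplicit false

/-!
# Covering convex bodies invariant under a representation of `SO(n)`
-/

namespace Pool.Agent.TH591.Lie

open scoped InnerProductSpace Matrix

variable {n : ℕ}
variable {E : Type*} [NormedAddCommGroup E] [InnerProductSpace ℝ E] [FiniteDimensional ℝ E]

/-- The family of standard generators, as a function on pairs. -/
noncomputable def XI (n : ℕ) (p : Fin n × Fin n) :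
    EuclideanSpace ℝ (Fin n) →L[ℝ] EuclideanSpace ℝ (Fin n) := xi p.1 p.2

theorem XI_skew (p : Fin n × Fin n) : Skew (XI n p) := xi_skew p.1 p.2

theorem XI_comb_skew (a : Fin n × Fin n → ℝ) : Skew (∑ p, a p • XI n p) :=
  comb_skew' Finset.univ (XI n) XI_skew a

theorem map_comb {F G : Type*} [AddCommMonoid F] [Module ℝ F] [TopologicalSpace F]
    [AddCommMonoid G] [Module ℝ G] [TopologicalSpace G] {ι : Type*} [Fintype ι] (L : F →L[ℝ] G) (a : ι → ℝ)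
    (Y : ι → F) : L (∑ p, a p • Y p) = ∑ p, a p • L (Y p) := by
  rw [map_sum]
  simp only [map_smul]

section

variable (ρ : Matrix.specialOrthogonalGroup (Fin n) ℝ →* (E ≃ₗᵢ[ℝ] E))
  (R : (Fin n × Fin n → ℝ) → (E →L[ℝ] E)) (hR : Differentiable ℝ R)
  (hRρ : ∀ g : Matrix.specialOrthogonalGroup (Fin n) ℝ,
    R (vec (g : Matrix (Fin n) (Fin n) ℝ)) = op ρ g)

include hR hRρ

theorem X_inv (K : Set E) (hinv : ∀ g, ∀ x ∈ K, ρ g x ∈ K) :
    Inv (fun p => dR R (XI n p)) K := by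
  intro a x hx
  beta_reduce
  rw [← map_comb (dR R) a (XI n), ← op_rot ρ R hR hRρ _ (XI_comb_skew a), op_apply]
  exact hinv _ x hx

theorem X_norm (k : ℕ) (hρ : PolyRep ρ k) (a : Fin n × Fin n → ℝ) (ha : ∑ p, a p ^ 2 ≤ 1)
    (x : E) : ‖∑ p, a p • dR R (XI n p) x‖ ≤ (k * √2) * ‖x‖ := by
  have h1 : ∑ p, a p • dR R (XI n p) x = dR R (∑ p, a p • XI n p) x := by
    rw [map_comb (dR R) a (XI n), FunLike.coe_sum, Finset.sum_apply]
    simp only [smul_apply]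
  have h2 : ∀ v, ‖(∑ p, a p • XI n p) v‖ ≤ √2 * ‖v‖ := fun v => xi_norm a ha v
  have h3 : (0 : ℝ) ≤ √2 := Real.sqrt_nonneg 2
  rw [h1]
  exact dR_norm_le ρ R hR hRρ k hρ _ (XI_comb_skew a) (√2) h3 h2 x

end

variable [MeasurableSpace E] [BorelSpace E]

/-- **Bodies invariant under an orthogonal representation of `SO(n)` of degree at most `k`.** -/
theorem cover_so (hn : 3 ≤ n) (k : ℕ) (hk : 1 ≤ k)
    (ρ : Matrix.specialOrthogonalGroup (Fin n) ℝ →* (E ≃ₗᵢ[ℝ] E)) (hρ : PolyRep ρ k)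
    (hfix : ∀ x, (∀ g, ρ g x = x) → x = 0)
    (K : Set E) (hd : 2 ≤ Module.finrank ℝ E)
    (hK : Convex ℝ K) (hKc : IsCompact K) (hKi : (interior K).Nonempty)
    (hKs : ∀ x ∈ K, -x ∈ K) (hinv : ∀ g, ∀ x ∈ K, ρ g x ∈ K) :
    ∃ T : Finset E, K ⊆ ⋃ t ∈ T, (fun x => t + x) '' interior K ∧
      (T.card : ℝ) ≤ 1 + 13 * Module.finrank ℝ E * Real.log (4 * Module.finrank ℝ E + 1)
        * 2 ^ Module.finrank ℝ E * Real.exp (-((n - 2) / (1024 * k ^ 2))) ∧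
      (18 * Module.finrank ℝ E * Real.log (4 * Module.finrank ℝ E + 1)
        * Real.exp (-((n - 2) / (1024 * k ^ 2))) ≤ 1 → T.card < 2 ^ Module.finrank ℝ E) := by
  obtain ⟨R, hR, hRρ⟩ := exists_extension ρ k hρ
  have hn' : (3 : ℝ) ≤ n := by exact_mod_cast hn
  have hk' : (1 : ℝ) ≤ k := by exact_mod_cast hk
  have hsq : (0 : ℝ) < √2 := by positivity
  have a1 : ∀ p, Skew (dR R (XI n p)) := fun p => dR_skew ρ R hR hRρ _ (XI_skew p)
  have a2 : ∀ j x, ∑ i, dR R (XI n j) (dR R (XI n i) (dR R (XI n i) x))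
      = ∑ i, dR R (XI n i) (dR R (XI n i) (dR R (XI n j) x)) := X_casimir ρ R hR hRρ
  have a3 : ∀ z x : E, (4 * n - 8 : ℝ) * ∑ k, ⟪z, dR R (XI n k) x⟫_ℝ ^ 2
      ≤ ∑ i, ∑ j, ⟪z, dR R (XI n i) (dR R (XI n j) x) - dR R (XI n j) (dR R (XI n i) x)⟫_ℝ ^ 2 :=
    X_kill ρ R hR hRρ
  have a4 : ∀ x, (∀ i, dR R (XI n i) x = 0) → x = 0 := X_fix ρ R hR hRρ hfix
  have a5 := X_norm ρ R hR hRρ k hρ
  have a6 := X_inv ρ R hR hRρ K hinv
  have a7 : (0 : ℝ) < 4 * n - 8 := by linarith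
  have a8 : (0 : ℝ) < k * √2 := by positivity
  have e : (4 * (n : ℝ) - 8) / (2048 * (k * √2) ^ 2) = (n - 2) / (1024 * k ^ 2) := by
    rw [mul_pow, Real.sq_sqrt (by norm_num)]
    field_simp
    ring
  rw [← e]
  clear e
  generalize hXdef : (fun p => dR R (XI n p)) = X at a6
  have hXp : ∀ p, dR R (XI n p) = X p := fun p => congrFun hXdef p
  simp only [hXp] at a1 a2 a3 a4 a5
  clear hXp hXdef
  exact cover_casimir X a1 a2 (4 * n - 8) a7 a3 a4 (k * √2) a8 a5 K hd hK hKc hKi hKs a6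

end Pool.Agent.TH591.Lie
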