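import Mathlib
import Pool.Agent.TH591.Lie.Sep
import Pool.Agent.TH591.Lie.Rep7

set_option autoImplicit false

/-!
# Separation of faces for bodies with a compact Lie group of symmetries
-/

namespace Pool.Agent.TH591.Lie

open scoped InnerProductSpace

variable {E : Type*} [NormedAddCommGroup E] [InnerProductSpace ℝ E] [FiniteDimensional ℝ E]

theorem strict_of_exp (d : ℝ) (hd : 1 ≤ d) (s : ℝ) (hs : 5 ≤ s) (hds : Real.log d ≤ s) :
    18 * d * Real.log (4 * d + 1) * Real.exp (-(2 * s)) ≤ 1 := by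
  have hd0 : 0 < d := by linarith
  have h1 : d ≤ Real.exp s := (Real.log_le_iff_le_exp hd0).mp hds
  have h2 : Real.log (4 * d + 1) ≤ 2 + s := by
    have h3 : Real.log (4 * d + 1) ≤ Real.log (Real.exp 2 * d) := by
      apply Real.log_le_log (by positivity)
      have h4 : (5 : ℝ) ≤ Real.exp 2 := by
        have h5 := Real.exp_one_gt_d9
        have h6 : Real.exp 2 = Real.exp 1 * Real.exp 1 := by
          rw [← Real.exp_add]; norm_num
        rw [h6]
        nlinarith
      nlinarith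
    rw [Real.log_mul (Real.exp_pos _).ne' hd0.ne', Real.log_exp] at h3
    linarith
  have h7 : 18 * (2 + s) ≤ Real.exp s := by
    have h8 : Real.exp s = Real.exp 5 * Real.exp (s - 5) := by
      rw [← Real.exp_add]; congr 1; ring
    have h9 : (148 : ℝ) ≤ Real.exp 5 := by
      have h5 : (2.718 : ℝ) ≤ Real.exp 1 := by
        have := Real.exp_one_gt_d9
        linarith
      have h6 : Real.exp 5 = Real.exp 1 ^ 5 := by
        rw [← Real.exp_nat_mul]; norm_num
      rw [h6]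
      calc (148 : ℝ) ≤ 2.718 ^ 5 := by norm_num
        _ ≤ Real.exp 1 ^ 5 := by gcongr
    have h10 := Real.add_one_le_exp (s - 5)
    rw [h8]
    nlinarith [Real.exp_pos (s - 5)]
  have h11 : Real.exp (-(2 * s)) * (Real.exp s * Real.exp s) = 1 := by
    rw [← Real.exp_add, ← Real.exp_add]
    simp only [Real.exp_eq_one_iff]
    ring
  have h12 : 18 * d * Real.log (4 * d + 1) ≤ Real.exp s * Real.exp s := by
    have h13 : 0 ≤ Real.log (4 * d + 1) := Real.log_nonneg (by linarith)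
    calc 18 * d * Real.log (4 * d + 1) = d * (18 * Real.log (4 * d + 1)) := by ring
      _ ≤ Real.exp s * (18 * (2 + s)) := by gcongr
      _ ≤ Real.exp s * Real.exp s := by gcongr
  calc 18 * d * Real.log (4 * d + 1) * Real.exp (-(2 * s))
      ≤ Real.exp s * Real.exp s * Real.exp (-(2 * s)) := by gcongr
    _ = 1 := by rw [mul_comm]; exact h11

/-- Passing from covering the polar body to separating the faces. -/
theorem sep_of_cover_bound (K : Set E) (o : E) (ho : o ∈ interior K)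
    (hd : 2 ≤ Module.finrank ℝ E) (s : ℝ)
    (h : ∃ T : Finset E, polarAt K o ⊆ ⋃ t ∈ T, (fun x => t + x) '' interior (polarAt K o) ∧
      (T.card : ℝ) ≤ 1 + 13 * Module.finrank ℝ E * Real.log (4 * Module.finrank ℝ E + 1)
        * 2 ^ Module.finrank ℝ E * Real.exp (-(2 * s)) ∧
      (18 * Module.finrank ℝ E * Real.log (4 * Module.finrank ℝ E + 1)
        * Real.exp (-(2 * s)) ≤ 1 → T.card < 2 ^ Module.finrank ℝ E)) :
    ∃ H : Finset (E × ℝ), SeparatesFaces K o H ∧
      (H.card : ℝ) ≤ 1 + 13 * Module.finrank ℝ E * Real.log (4 * Module.finrank ℝ E + 1)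
        * 2 ^ Module.finrank ℝ E * Real.exp (-(2 * s)) ∧
      (5 ≤ s → Real.log (Module.finrank ℝ E) ≤ s → H.card < 2 ^ Module.finrank ℝ E) := by
  obtain ⟨T, hT, h1, h2⟩ := h
  obtain ⟨H, hH, hsep⟩ := sep_of_cover K o ho T hT
  refine ⟨H, hsep, ?_, fun hs hds => ?_⟩
  · refine le_trans ?_ h1
    exact_mod_cast hH
  · refine hH.trans_lt (h2 (strict_of_exp _ ?_ s hs hds))
    exact_mod_cast (by omega : 1 ≤ Module.finrank ℝ E)

/-- Separation for bodies invariant under a compact Lie algebra of skew operators. -/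
theorem sep_lie {ι : Type*} [Fintype ι] (K : Set E) (o : E) (hKc : IsCompact K)
    (ho : o ∈ interior K) (hd : 2 ≤ Module.finrank ℝ E) (hKs : ∀ x ∈ K, o - (x - o) ∈ K)
    (X : ι → E →L[ℝ] E)
    (hX : ∀ i x y, ⟪X i x, y⟫_ℝ = -⟪x, X i y⟫_ℝ)
    (hinv : ∀ a : ι → ℝ, ∀ x ∈ K, o + NormedSpace.exp (∑ i, a i • X i) (x - o) ∈ K)
    (c : ι → ι → ι → ℝ) (hc : ∀ i j x, X i (X j x) - X j (X i x) = ∑ k, c i j k • X k x)
    (hanti : ∀ i j k, c i j k = -c k j i) (γ : ℝ) (hγ : 0 < γ)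
    (hkill : ∀ v : ι → ℝ, γ * ∑ k, v k ^ 2 ≤ ∑ i, ∑ j, (∑ k, c i j k * v k) ^ 2)
    (hfix : ∀ x, (∀ i, X i x = 0) → x = 0) (κ : ℝ) (hκ : 0 < κ)
    (hn : ∀ a : ι → ℝ, ∑ i, a i ^ 2 ≤ 1 → ∀ x, ‖∑ i, a i • X i x‖ ≤ κ * ‖x‖)
    (s : ℝ) (hs : s = γ / (4096 * κ ^ 2)) :
    ∃ H : Finset (E × ℝ), SeparatesFaces K o H ∧
      (H.card : ℝ) ≤ 1 + 13 * Module.finrank ℝ E * Real.log (4 * Module.finrank ℝ E + 1)
        * 2 ^ Module.finrank ℝ E * Real.exp (-(2 * s)) ∧
      (5 ≤ s → Real.log (Module.finrank ℝ E) ≤ s → H.card < 2 ^ Module.finrank ℝ E) := by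
  let _ : MeasurableSpace E := borel E
  have _ : BorelSpace E := ⟨rfl⟩
  apply sep_of_cover_bound K o ho hd s
  have hPs : ∀ v ∈ polarAt K o, -v ∈ polarAt K o := by
    intro v hv y hy
    have := hv _ (hKs y hy)
    rw [show o - (y - o) - o = -(y - o) by abel, inner_neg_right] at this
    rw [inner_neg_left]
    exact this
  have hPinv : Inv X (polarAt K o) := by
    intro a v hv y hy
    set S := ∑ i, a i • X i with hS
    have hSk : ∀ x y, ⟪S x, y⟫_ℝ = -⟪x, S y⟫_ℝ := comb_skew' Finset.univ X hX a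
    have h1 := hinv (-a) y hy
    have e1 : ∑ i, (-a) i • X i = (-1 : ℝ) • S := by
      rw [hS, Finset.smul_sum]
      refine Finset.sum_congr rfl fun i _ => ?_
      rw [Pi.neg_apply, neg_smul, neg_smul, one_smul]
    rw [e1] at h1
    have h2 := hv _ h1
    rw [add_sub_cancel_left, ← flow_inner S hSk 1, flow_neg', one_smul] at h2
    exact h2
  have h := cover_casimir X hX (casimir_comm X c hc hanti) γ hγ (kill_bound X c hc γ hkill) hfix κ
    hκ hn (polarAt K o) hd (polarAt_convex K o) (polarAt_compact K o ho)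
    (polarAt_interior K hKc o ho) hPs hPinv
  have e : γ / (2048 * κ ^ 2) = 2 * s := by
    rw [hs]; field_simp; norm_num
  rw [e] at h
  exact h

/-- Separation for bodies invariant under a representation of `SO(n)` of degree at most `k`. -/
theorem sep_so {n : ℕ} (K : Set E) (o : E) (hKc : IsCompact K)
    (ho : o ∈ interior K) (hd : 2 ≤ Module.finrank ℝ E) (hKs : ∀ x ∈ K, o - (x - o) ∈ K)
    (hn : 3 ≤ n) (k : ℕ) (hk : 1 ≤ k)
    (ρ : Matrix.specialOrthogonalGroup (Fin n) ℝ →* (E ≃ₗᵢ[ℝ] E)) (hρ : PolyRep ρ k)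
    (hfix : ∀ x, (∀ g, ρ g x = x) → x = 0)
    (hinv : ∀ g, ∀ x ∈ K, o + ρ g (x - o) ∈ K)
    (s : ℝ) (hs : s = (n - 2) / (2048 * k ^ 2)) :
    ∃ H : Finset (E × ℝ), SeparatesFaces K o H ∧
      (H.card : ℝ) ≤ 1 + 13 * Module.finrank ℝ E * Real.log (4 * Module.finrank ℝ E + 1)
        * 2 ^ Module.finrank ℝ E * Real.exp (-(2 * s)) ∧
      (5 ≤ s → Real.log (Module.finrank ℝ E) ≤ s → H.card < 2 ^ Module.finrank ℝ E) := by
  let _ : MeasurableSpace E := borel E
  have _ : BorelSpace E := ⟨rfl⟩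
  apply sep_of_cover_bound K o ho hd s
  have hPs : ∀ v ∈ polarAt K o, -v ∈ polarAt K o := by
    intro v hv y hy
    have := hv _ (hKs y hy)
    rw [show o - (y - o) - o = -(y - o) by abel, inner_neg_right] at this
    rw [inner_neg_left]
    exact this
  have hPinv : ∀ g, ∀ v ∈ polarAt K o, ρ g v ∈ polarAt K o := by
    intro g v hv y hy
    have h1 := hinv g⁻¹ y hy
    have h2 := hv _ h1
    have e1 : ρ g (ρ g⁻¹ (y - o)) = y - o := by
      have : ρ g (ρ g⁻¹ (y - o)) = (ρ g * ρ g⁻¹) (y - o) := rfl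
      rw [this, ← map_mul, mul_inv_cancel, map_one]
      rfl
    rw [add_sub_cancel_left, ← (ρ g).inner_map_map, e1] at h2
    exact h2
  have h := cover_so hn k hk ρ hρ hfix (polarAt K o) hd (polarAt_convex K o)
    (polarAt_compact K o ho) (polarAt_interior K hKc o ho) hPs hPinv
  have hk' : (1 : ℝ) ≤ k := by exact_mod_cast hk
  have e : ((n : ℝ) - 2) / (1024 * k ^ 2) = 2 * s := by
    rw [hs]; field_simp; ring
  rw [e] at h
  exact h

end Pool.Agent.TH591.Lie
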